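import Pool.Agent.H48.MTA.CBU

/-!
# Project MTA, module BAD
-/

set_option autoImplicit false

namespace MTA
open Finset

namespace H48

theorem sig1_nonneg {P : Finset ℕ} (hP : ∀ p ∈ P, p.Prime) (R0 : ℝ) (p0 r : ℕ) :
    0 ≤ sig1 P R0 p0 r := by
  unfold sig1
  refine Finset.sum_nonneg fun E hE => mul_nonneg (Finset.prod_nonneg fun p hp =>
    (pos_aux (hP p (mem_powerset.1 hE hp))).le) ?_
  split_ifs <;> norm_num

theorem one_le_prod {P : Finset ℕ} (hP : ∀ p ∈ P, p.Prime) : (1 : ℝ) ≤ ∏ p ∈ P, (p : ℝ) := by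
  have h5 : 1 ≤ ∏ p ∈ P, p := Nat.succ_le_of_lt (Finset.prod_pos fun p hp => (hP p hp).pos)
  have h6 : ((1 : ℕ) : ℝ) ≤ ((∏ p ∈ P, p : ℕ) : ℝ) := Nat.cast_le.2 h5
  rwa [Nat.cast_one, Nat.cast_prod] at h6

theorem sig1_le {P : Finset ℕ} (hP : ∀ p ∈ P, p.Prime) (hPw : ∀ p ∈ P, 4 < p) (R0 : ℝ)
    (p0 r : ℕ) : sig1 P R0 p0 r ≤ 4 / 3 := by
  classical
  have b2 : ∏ p ∈ P, (1 + 1 / ((p : ℝ) * (p - 1))) ≤ 4 / 3 := by
    have := prod_bound' P (fun p => 1 / ((p : ℝ) * (p - 1))) (fun p hp => (pos_aux (hP p hp)).le)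
      (b := 1 / 4) (by norm_num) ((sum_bound P 4 (by norm_num) hPw).trans (by norm_num))
    exact this.trans (by norm_num)
  refine le_trans ?_ b2
  rw [Finset.prod_one_add]
  unfold sig1
  refine Finset.sum_le_sum fun E hE => ?_
  have h1 : 0 ≤ ∏ p ∈ E, 1 / ((p : ℝ) * (p - 1)) := Finset.prod_nonneg fun p hp =>
    (pos_aux (hP p (mem_powerset.1 hE hp))).le
  split_ifs
  · rw [mul_one]
  · rw [mul_zero]; exact h1

theorem sig1_zero {P : Finset ℕ} (hP : ∀ p ∈ P, p.Prime) (R0 : ℝ) (p0 r : ℕ) (h : R0 < r) :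
    sig1 P R0 p0 r = 0 := by
  unfold sig1
  refine Finset.sum_eq_zero fun E hE => ?_
  rw [if_neg, mul_zero]
  rintro ⟨-, h2⟩
  have h3 := one_le_prod fun p hp => hP p (mem_powerset.1 hE hp)
  have h4 : (0 : ℝ) ≤ r := by positivity
  nlinarith

/-- sum of `sig1 / φ` -/
theorem sig1_sum (W : ℕ) (Y R0 : ℝ) (hPw : ∀ p ∈ PP W Y, 4 < p) (hR0 : 1 ≤ R0) (p0 : ℕ) (hp0 : 1 ≤ p0)
    (Win : ℝ) (hWin : 0 ≤ Win)
    (hw : ∀ y : ℝ, 0 < y → ∑ a ∈ (SF W y).filter (fun a : ℕ => y / (p0 : ℝ) < (a : ℝ)),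
      1 / (a.totient : ℝ) ≤ 2 * Win) :
    ∑ r ∈ SF W R0, sig1 (PP W Y) R0 p0 r / (r.totient : ℝ) ≤ 8 / 3 * Win := by
  classical
  set P := PP W Y with hPd
  have hP : ∀ p ∈ P, p.Prime := fun p hp => PP_prime hp
  have hp0' : (0 : ℝ) < p0 := by exact_mod_cast hp0
  have b2 : ∏ p ∈ P, (1 + 1 / ((p : ℝ) * (p - 1))) ≤ 4 / 3 := by
    have := prod_bound' P (fun p => 1 / ((p : ℝ) * (p - 1))) (fun p hp => (pos_aux (hP p hp)).le)
      (b := 1 / 4) (by norm_num) ((sum_bound P 4 (by norm_num) hPw).trans (by norm_num))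
    exact this.trans (by norm_num)
  have e1 : ∑ r ∈ SF W R0, sig1 P R0 p0 r / (r.totient : ℝ) =
      ∑ E ∈ P.powerset, (∏ p ∈ E, 1 / ((p : ℝ) * (p - 1))) * ∑ r ∈ SF W R0,
        (if R0 / p0 < (r : ℝ) * ∏ p ∈ E, (p : ℝ) ∧ (r : ℝ) * ∏ p ∈ E, (p : ℝ) ≤ R0 then 1 else 0) *
          (1 / (r.totient : ℝ)) := by
    unfold sig1
    simp_rw [Finset.sum_div, Finset.mul_sum]
    rw [Finset.sum_comm]
    refine Finset.sum_congr rfl fun E _ => Finset.sum_congr rfl fun r _ => ?_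
    ring
  rw [e1]
  have e2 : ∀ E ∈ P.powerset, ∑ r ∈ SF W R0,
        (if R0 / p0 < (r : ℝ) * ∏ p ∈ E, (p : ℝ) ∧ (r : ℝ) * ∏ p ∈ E, (p : ℝ) ≤ R0 then 1 else 0) *
          (1 / (r.totient : ℝ)) ≤ 2 * Win := by
    intro E hE
    have h1 := one_le_prod fun p hp => hP p (mem_powerset.1 hE hp)
    set e : ℝ := ∏ p ∈ E, (p : ℝ) with he
    have he0 : 0 < e := by linarith
    refine le_trans ?_ (hw (R0 / e) (by positivity))
    simp_rw [ite_mul, one_mul, zero_mul]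
    rw [← Finset.sum_filter]
    refine Finset.sum_le_sum_of_subset_of_nonneg ?_ fun a _ _ => by positivity
    intro r hr
    rw [mem_filter] at hr ⊢
    obtain ⟨h2, h3, h4⟩ := hr
    unfold SF at h2 ⊢
    rw [mem_filter, mem_Icc] at h2 ⊢
    refine ⟨⟨⟨h2.1.1, Nat.le_floor ?_⟩, h2.2⟩, ?_⟩
    · rw [le_div_iff₀ he0]; exact h4
    · rw [div_div, div_lt_iff₀ (by positivity)]
      rw [div_lt_iff₀ hp0'] at h3
      linarith
  calc ∑ E ∈ P.powerset, (∏ p ∈ E, 1 / ((p : ℝ) * (p - 1))) * ∑ r ∈ SF W R0,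
        (if R0 / p0 < (r : ℝ) * ∏ p ∈ E, (p : ℝ) ∧ (r : ℝ) * ∏ p ∈ E, (p : ℝ) ≤ R0 then 1 else 0) *
          (1 / (r.totient : ℝ)) ≤
      ∑ E ∈ P.powerset, (∏ p ∈ E, 1 / ((p : ℝ) * (p - 1))) * (2 * Win) :=
        Finset.sum_le_sum fun E hE => mul_le_mul_of_nonneg_left (e2 E hE)
          (Finset.prod_nonneg fun p hp => (pos_aux (hP p (mem_powerset.1 hE hp))).le)
    _ = (∏ p ∈ P, (1 + 1 / ((p : ℝ) * (p - 1)))) * (2 * Win) := by
        rw [← Finset.sum_mul, Finset.prod_one_add]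
    _ ≤ 4 / 3 * (2 * Win) := mul_le_mul_of_nonneg_right b2 (by linarith)
    _ = 8 / 3 * Win := by ring

end H48

open H48 in
/-- BAD -/
theorem BAD (hQB : S_QB) (hCBU : S_CBU) (hBSUM : S_BSUM) (hPHIN : S_PHIN) : S_BAD := by
  classical
  refine ⟨128, by norm_num, ?_⟩
  intro n hn
  obtain ⟨w1, h1⟩ := hCBU n
  obtain ⟨w2, h2⟩ := hPHIN n
  refine ⟨max (max w1 w2) (n + 4), ?_⟩
  intro W hW0 hW Y R0 R V α hα hV hR0 k p0 Win hWin hMs
  have hc := h1 W hW0 (fun p hp hle => hW p hp (hle.trans (le_trans (le_max_left _ _) (le_max_left _ _))))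
    Y R0 R V α hα k p0
  obtain ⟨ph1, ph2, ph3⟩ := h2 W hW0
    (fun p hp hle => hW p hp (hle.trans (le_trans (le_max_right _ _) (le_max_left _ _))))
  have hP : ∀ p ∈ PP W Y, p.Prime := fun p hp => PP_prime hp
  have hPw : ∀ p ∈ PP W Y, n + 4 < p := fun p hp =>
    lt_of_le_of_lt (le_max_right _ _) (PP_gt hW hp)
  have hPw4 : ∀ p ∈ PP W Y, 4 < p := fun p hp => by have := hPw p hp; omega
  have hp0p : (p0 : ℕ).Prime := hP p0 p0.2
  have hp01 : (1 : ℝ) < ((p0 : ℕ) : ℝ) := by exact_mod_cast hp0p.one_lt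
  have hp00 : (0 : ℝ) < ((p0 : ℕ) : ℝ) := by linarith
  have hinv : 0 < 1 / (((p0 : ℕ) : ℝ) - 1) := by
    have : (0 : ℝ) < ((p0 : ℕ) : ℝ) - 1 := by linarith
    positivity
  refine (hQB (PP W Y) n k.succ (Fin.succ_ne_zero k) (fun p hp => ⟨hP p hp, by
    have := hPw p hp; omega⟩) p0 (yv R0 R V α)).trans (mul_le_mul_of_nonneg_left ?_ hinv.le)
  set A1 := A1s W V α with hA1
  set A2 := A2s W V α with hA2
  set s : ℕ → ℝ := fun r => (sgm n (PP W Y) R0 (p0 : ℕ) r) ^ 2 with hs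
  have hsp : ∀ B : Cfg (PP W Y) n, 0 ≤ sprod (fun p => 1 / ((p : ℝ) - 1)) B := by
    intro B
    unfold sprod
    refine Finset.prod_nonneg fun p _ => ?_
    split_ifs
    · have : (1 : ℝ) < ((p : ℕ) : ℝ) := by exact_mod_cast (hP p p.2).one_lt
      have : (0 : ℝ) < ((p : ℕ) : ℝ) - 1 := by linarith
      positivity
    · norm_num
  -- first: use of CBU
  have step1 : ∑ B : Cfg (PP W Y) n with Avoid k.succ B ∧ B p0 = none,
      (ltrans (mKB k.succ (p0 : ℕ)) (yv R0 R V α) B) ^ 2 * sprod (fun p => 1 / ((p : ℝ) - 1)) B ≤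
      4 * A1 ^ 2 * ∑ B : Cfg (PP W Y) n with Avoid k.succ B,
        (∏ l ∈ univ.erase k, GG α V (rr B l.succ)) ^ 2 * s (rr B 0) *
          sprod (fun p => 1 / ((p : ℝ) - 1)) B := by
    rw [Finset.mul_sum]
    calc ∑ B : Cfg (PP W Y) n with Avoid k.succ B ∧ B p0 = none,
          (ltrans (mKB k.succ (p0 : ℕ)) (yv R0 R V α) B) ^ 2 *
            sprod (fun p => 1 / ((p : ℝ) - 1)) B ≤
        ∑ B : Cfg (PP W Y) n with Avoid k.succ B ∧ B p0 = none,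
          4 * A1 ^ 2 * ((∏ l ∈ univ.erase k, GG α V (rr B l.succ)) ^ 2 * s (rr B 0) *
            sprod (fun p => 1 / ((p : ℝ) - 1)) B) := by
          refine Finset.sum_le_sum fun B hB => ?_
          rw [mem_filter] at hB
          have h3 := hc B hB.2.1 hB.2.2
          have h4 : (ltrans (mKB k.succ (p0 : ℕ)) (yv R0 R V α) B) ^ 2 ≤
              (2 * A1 * (∏ l ∈ univ.erase k, GG α V (rr B l.succ)) *
                sgm n (PP W Y) R0 p0 (rr B 0)) ^ 2 := by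
            rw [← sq_abs]
            exact pow_le_pow_left₀ (abs_nonneg _) h3 2
          calc (ltrans (mKB k.succ (p0 : ℕ)) (yv R0 R V α) B) ^ 2 *
                sprod (fun p => 1 / ((p : ℝ) - 1)) B ≤
              (2 * A1 * (∏ l ∈ univ.erase k, GG α V (rr B l.succ)) *
                sgm n (PP W Y) R0 p0 (rr B 0)) ^ 2 * sprod (fun p => 1 / ((p : ℝ) - 1)) B :=
                mul_le_mul_of_nonneg_right h4 (hsp B)
            _ = _ := by rw [hs]; ring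
      _ ≤ _ := by
          refine Finset.sum_le_sum_of_subset_of_nonneg ?_ fun B _ _ => ?_
          · intro B hB
            rw [mem_filter] at hB ⊢
            exact ⟨hB.1, hB.2.1⟩
          · have : 0 ≤ s (rr B 0) := by rw [hs]; positivity
            have := hsp B
            positivity
  -- second: BSUM
  have hs0 : ∀ r, 0 ≤ s r := fun r => by rw [hs]; positivity
  have hsz : ∀ r : ℕ, R0 < r → s r = 0 := by
    intro r hr
    rw [hs]
    simp only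
    unfold sgm
    rw [sig1_zero hP R0 p0 r hr, if_neg (not_le.2 hr)]
    ring
  have step2 := hBSUM W n Y V α hW0 hα k s R0 hs0 hsz
  -- third: the sum of `s / φ`
  have step3 : ∑ r ∈ SF W R0, s r / (r.totient : ℝ) ≤
      32 / 3 * Win + 4 * ((n + 1) ^ 2 / ((p0 : ℕ) : ℝ) ^ 2) * Msum W R0 := by
    have hle : ∀ r, s r ≤ 4 * sig1 (PP W Y) R0 p0 r + 2 * ((n + 1) ^ 2 / ((p0 : ℕ) : ℝ) ^ 2) := by
      intro r
      have g0 := sig1_nonneg hP R0 p0 r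
      have g1 := sig1_le hP hPw4 R0 p0 r
      rw [hs]
      simp only
      unfold sgm
      set u := sig1 (PP W Y) R0 p0 r with hu
      have hv : (0 : ℝ) ≤ (n + 1) / ((p0 : ℕ) : ℝ) := by positivity
      have hve : (n + 1 : ℝ) ^ 2 / ((p0 : ℕ) : ℝ) ^ 2 = ((n + 1) / ((p0 : ℕ) : ℝ)) ^ 2 := by
        rw [div_pow]
      rw [hve]
      set v : ℝ := (n + 1) / ((p0 : ℕ) : ℝ) with hvd
      split_ifs
      · nlinarith [sq_nonneg (u - v), mul_nonneg g0 (by linarith : (0 : ℝ) ≤ 4 / 3 - u)]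
      · nlinarith [sq_nonneg v, mul_nonneg g0 (by linarith : (0 : ℝ) ≤ 4 / 3 - u)]
    have hsig := sig1_sum W Y R0 hPw4 hR0 p0 hp0p.one_le Win hWin
      (ph3 ((p0 : ℕ) : ℝ) Win hp01.le hWin hMs)
    calc ∑ r ∈ SF W R0, s r / (r.totient : ℝ) ≤
        ∑ r ∈ SF W R0, (4 * (sig1 (PP W Y) R0 p0 r / (r.totient : ℝ)) +
          2 * ((n + 1) ^ 2 / ((p0 : ℕ) : ℝ) ^ 2) * (1 / (r.totient : ℝ))) := by
          refine Finset.sum_le_sum fun r _ => ?_
          calc s r / (r.totient : ℝ) ≤ (4 * sig1 (PP W Y) R0 p0 r +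
                2 * ((n + 1) ^ 2 / ((p0 : ℕ) : ℝ) ^ 2)) / (r.totient : ℝ) :=
                div_le_div_of_nonneg_right (hle r) (by positivity)
            _ = _ := by ring
      _ = 4 * (∑ r ∈ SF W R0, sig1 (PP W Y) R0 p0 r / (r.totient : ℝ)) +
          2 * ((n + 1) ^ 2 / ((p0 : ℕ) : ℝ) ^ 2) * ∑ r ∈ SF W R0, 1 / (r.totient : ℝ) := by
          rw [Finset.sum_add_distrib, Finset.mul_sum, Finset.mul_sum]
      _ ≤ 4 * (8 / 3 * Win) + 2 * ((n + 1) ^ 2 / ((p0 : ℕ) : ℝ) ^ 2) * (2 * Msum W R0) := by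
          refine add_le_add (mul_le_mul_of_nonneg_left hsig (by norm_num))
            (mul_le_mul_of_nonneg_left (ph2 R0) (by positivity))
      _ = _ := by ring
  have hA20 : 0 ≤ A2 := by
    rw [hA2]; unfold A2s
    exact Finset.sum_nonneg fun a _ => by positivity
  have hMs0 : 0 ≤ Msum W R0 := by
    unfold Msum
    exact Finset.sum_nonneg fun a _ => by positivity
  have hS30 : 0 ≤ ∑ r ∈ SF W R0, s r / (r.totient : ℝ) :=
    Finset.sum_nonneg fun r _ => div_nonneg (hs0 r) (by positivity)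
  have hT0 : 0 ≤ (∑ a ∈ SF W V, GG α V a ^ 2 / (a.totient : ℝ)) ^ (n - 1) :=
    pow_nonneg (Finset.sum_nonneg fun a _ => by positivity) _
  have hb0 : 0 ≤ 32 / 3 * Win + 4 * ((n + 1) ^ 2 / ((p0 : ℕ) : ℝ) ^ 2) * Msum W R0 :=
    hS30.trans step3
  calc ∑ B : Cfg (PP W Y) n with Avoid k.succ B ∧ B p0 = none,
      (ltrans (mKB k.succ (p0 : ℕ)) (yv R0 R V α) B) ^ 2 * sprod (fun p => 1 / ((p : ℝ) - 1)) B ≤
      4 * A1 ^ 2 * ((∑ r ∈ SF W R0, s r / (r.totient : ℝ)) *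
        (∑ a ∈ SF W V, GG α V a ^ 2 / (a.totient : ℝ)) ^ (n - 1)) :=
        step1.trans (mul_le_mul_of_nonneg_left step2 (by positivity))
    _ ≤ 4 * A1 ^ 2 * ((32 / 3 * Win + 4 * ((n + 1) ^ 2 / ((p0 : ℕ) : ℝ) ^ 2) * Msum W R0) *
        (2 * A2 ^ (n - 1))) := by
        refine mul_le_mul_of_nonneg_left ?_ (by positivity)
        exact mul_le_mul step3 (ph1 V α hα) hT0 hb0
    _ = A1 ^ 2 * A2 ^ (n - 1) * (256 / 3 * Win + 32 * ((n + 1) ^ 2 / ((p0 : ℕ) : ℝ) ^ 2) *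
        Msum W R0) := by ring
    _ ≤ A1 ^ 2 * A2 ^ (n - 1) * (128 * Win + 128 * (n + 1) ^ 2 / ((p0 : ℕ) : ℝ) ^ 2 *
        Msum W R0) := by
        refine mul_le_mul_of_nonneg_left ?_ (by positivity)
        have h5 : 0 ≤ ((n + 1 : ℝ) ^ 2 / ((p0 : ℕ) : ℝ) ^ 2) * Msum W R0 := by positivity
        have h6 : 128 * (n + 1 : ℝ) ^ 2 / ((p0 : ℕ) : ℝ) ^ 2 * Msum W R0 =
          128 * (((n + 1 : ℝ) ^ 2 / ((p0 : ℕ) : ℝ) ^ 2) * Msum W R0) := by ring
        rw [h6]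
        nlinarith

end MTA
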