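import Pool.Agent.H48.MTA.Base

/-!
# Project MTA, module CBU
-/

set_option autoImplicit false

namespace MTA
open Finset

namespace H48

section
variable {P : Finset ℕ} {n : ℕ}

/-- splitting a sum over configurations at one prime -/
theorem cbu_split (p0 : ↥P) (F : Cfg P n → ℝ) :
    ∑ A, F A = ∑ A' : Cfg P n with A' p0 = none, ∑ o, F (Function.update A' p0 o) := by
  classical
  rw [← Finset.sum_fiberwise_of_maps_to (s := univ)
    (t := univ.filter (fun A' : Cfg P n => A' p0 = none))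
    (g := fun A => Function.update A p0 none) (by simp) F]
  refine sum_congr rfl fun A' hA' => ?_
  rw [mem_filter] at hA'
  symm
  refine Finset.sum_bij' (fun o _ => Function.update A' p0 o) (fun A _ => A p0) ?_ ?_ ?_ ?_ ?_
  · intro o _
    rw [mem_filter]
    refine ⟨mem_univ _, ?_⟩
    rw [Function.update_idem, ← hA'.2, Function.update_eq_self]
  · intro A _
    exact mem_univ _
  · intro o _
    exact Function.update_self _ _ _
  · intro A hA
    rw [mem_filter] at hA
    rw [← hA.2, Function.update_idem, Function.update_eq_self]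
  · intro o _
    rfl

/-- weight of an extra label different from `0`, `K` -/
noncomputable def fF (K : Fin (n + 1)) (p : ℕ) (o : Option (Fin (n + 1))) : ℝ :=
  o.elim 1 (fun l => if l = 0 ∨ l = K then 0 else 1 / ((p : ℝ) * (p - 1)))

theorem pos_aux {p : ℕ} (hp : p.Prime) : 0 < 1 / ((p : ℝ) * (p - 1)) := by
  have h : (2 : ℝ) ≤ p := by exact_mod_cast hp.two_le
  have h2 : (0 : ℝ) < (p : ℝ) - 1 := by linarith
  positivity

theorem fF_nonneg (K : Fin (n + 1)) {p : ℕ} (hp : p.Prime) (o : Option (Fin (n + 1))) :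
    0 ≤ fF K p o := by
  unfold fF
  cases o with
  | none => simp
  | some l =>
    simp only [Option.elim]
    split_ifs
    · exact le_rfl
    · exact (pos_aux hp).le

theorem fF_sum (K : Fin (n + 1)) {p : ℕ} (hp : p.Prime) :
    ∑ o, fF K p o ≤ 1 + n * (1 / ((p : ℝ) * (p - 1))) := by
  rw [Fintype.sum_option, Fin.sum_univ_succ]
  have h0 : fF K p (some 0) = 0 := by simp [fF]
  have h1 : fF K p none = 1 := rfl
  rw [h0, h1, zero_add]
  have h2 : ∑ i : Fin n, fF K p (some i.succ) ≤ ∑ _i : Fin n, 1 / ((p : ℝ) * (p - 1)) := by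
    refine Finset.sum_le_sum fun i _ => ?_
    unfold fF
    simp only [Option.elim]
    split_ifs
    · exact (pos_aux hp).le
    · exact le_rfl
  rw [Finset.sum_const, Finset.card_univ, Fintype.card_fin, nsmul_eq_mul] at h2
  linarith

open Classical in
/-- the main estimate: sums over the extra primes -/
theorem cbu_key (hP : ∀ p ∈ P, p.Prime) {α V : ℝ} (hα : 0 ≤ α) (k : Fin n) (p0 : ↥P) (B : Cfg P n)
    (hB : Avoid k.succ B) (hB0 : B p0 = none) (σ : ℕ → ℝ) (hσ : ∀ r, 0 ≤ σ r) :
    ∑ A' : Cfg P n with A' p0 = none,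
      (∏ p ∈ univ.erase p0, |mK k.succ (p : ℕ) (A' p) (B p)|) *
        ((∏ l : Fin n, GG α V (rr A' l.succ)) * σ (rr A' 0)) ≤
    (∑ D ∈ P.powerset, (∏ p ∈ D, 1 / (p : ℝ)) * GG α V (∏ p ∈ D, p)) *
      (∑ E ∈ P.powerset, (∏ p ∈ E, 1 / ((p : ℝ) * (p - 1))) * σ (rr B 0 * ∏ p ∈ E, p)) *
      (∏ p ∈ P, (1 + n * (1 / ((p : ℝ) * (p - 1))))) * ∏ l ∈ univ.erase k, GG α V (rr B l.succ) := by
  set K : Fin (n + 1) := k.succ with hK
  have hK0 : K ≠ 0 := Fin.succ_ne_zero k
  set rB : ℝ := ∏ l ∈ univ.erase k, GG α V (rr B l.succ) with hrB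
  have hrB0 : 0 ≤ rB := Finset.prod_nonneg fun l _ => GG_nonneg hα _
  -- the set of relevant configurations
  set s : Finset (Cfg P n) := univ.filter (fun A' => A' p0 = none ∧ ∀ p, B p ≠ none → A' p = B p)
    with hs
  let FF : Cfg P n → Cfg P n := fun A' p =>
    if B p = none ∧ A' p ≠ some 0 ∧ A' p ≠ some K then A' p else none
  let DD : Cfg P n → Finset ℕ := fun A' => supp (fun p : ↥P => A' p = some K)
  let EE' : Cfg P n → Finset ℕ := fun A' => supp (fun p : ↥P => A' p = some 0 ∧ B p = none)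
  let Φ : Cfg P n → Finset ℕ × Finset ℕ × Cfg P n := fun A' => (DD A', EE' A', FF A')
  let h : Finset ℕ × Finset ℕ × Cfg P n → ℝ := fun x =>
    ((∏ p ∈ x.1, 1 / (p : ℝ)) * GG α V (∏ p ∈ x.1, p)) *
      ((∏ p ∈ x.2.1, 1 / ((p : ℝ) * (p - 1))) * σ (rr B 0 * ∏ p ∈ x.2.1, p)) *
      (∏ p : ↥P, fF K (p : ℕ) (x.2.2 p)) * rB
  have hh0 : ∀ x ∈ P.powerset ×ˢ (P.powerset ×ˢ (univ : Finset (Cfg P n))), 0 ≤ h x := by
    rintro ⟨D, E, F⟩ hx
    rw [mem_product, mem_product, mem_powerset, mem_powerset] at hx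
    obtain ⟨hD, hE, -⟩ := hx
    simp only at hD hE
    refine mul_nonneg (mul_nonneg (mul_nonneg ?_ ?_) ?_) hrB0
    · exact mul_nonneg (Finset.prod_nonneg fun p _ => by positivity) (GG_nonneg hα _)
    · exact mul_nonneg (Finset.prod_nonneg fun p hp => (pos_aux (hP p (hE hp))).le) (hσ _)
    · exact Finset.prod_nonneg fun p _ => fF_nonneg K (hP p p.2) _
  -- injectivity
  have hinj : Set.InjOn Φ (s : Set (Cfg P n)) := by
    intro A1 h1 A2 h2 h12
    rw [Finset.mem_coe, hs, mem_filter] at h1 h2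
    have e1 : DD A1 = DD A2 := congrArg (fun x => x.1) h12
    have e2 : EE' A1 = EE' A2 := congrArg (fun x => x.2.1) h12
    have e3 : FF A1 = FF A2 := congrArg (fun x => x.2.2) h12
    funext p
    by_cases hBp : B p = none
    · have a1 : A1 p = some K ↔ A2 p = some K := by
        rw [← mem_supp (fun p : ↥P => A1 p = some K) p, ← mem_supp (fun p : ↥P => A2 p = some K) p]
        exact iff_of_eq (congrArg (fun X => (p : ℕ) ∈ X) e1)
      have a2 : A1 p = some 0 ∧ B p = none ↔ A2 p = some 0 ∧ B p = none := by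
        rw [← mem_supp (fun p : ↥P => A1 p = some 0 ∧ B p = none) p,
          ← mem_supp (fun p : ↥P => A2 p = some 0 ∧ B p = none) p]
        exact iff_of_eq (congrArg (fun X => (p : ℕ) ∈ X) e2)
      have a3 : FF A1 p = FF A2 p := congrFun e3 p
      by_cases c1 : A1 p = some K
      · rw [c1, a1.1 c1]
      by_cases c2 : A1 p = some 0
      · rw [c2, (a2.1 ⟨c2, hBp⟩).1]
      have c3 : A2 p ≠ some K := fun hc => c1 (a1.2 hc)
      have c4 : A2 p ≠ some 0 := fun hc => c2 (a2.2 ⟨hc, hBp⟩).1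
      simp only [FF] at a3
      rwa [if_pos ⟨hBp, c2, c1⟩, if_pos ⟨hBp, c4, c3⟩] at a3
    · rw [h1.2.2 p hBp, h2.2.2 p hBp]
  -- comparison of the terms
  have hterm : ∀ A' ∈ s, (∏ p ∈ univ.erase p0, |mK K (p : ℕ) (A' p) (B p)|) *
        ((∏ l : Fin n, GG α V (rr A' l.succ)) * σ (rr A' 0)) ≤ h (Φ A') := by
    intro A' hA'
    rw [hs, mem_filter] at hA'
    obtain ⟨-, hA0, hext⟩ := hA'
    have r1 : rr A' K = ∏ p ∈ DD A', p := by
      simp only [DD]
      rw [supp_prod]
      rfl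
    have r2 : rr A' 0 = rr B 0 * ∏ p ∈ EE' A', p := by
      simp only [EE']
      rw [supp_prod]
      unfold rr
      rw [← Finset.prod_mul_distrib]
      refine Finset.prod_congr rfl fun p _ => ?_
      by_cases hBp : B p = none
      · simp [hBp]
      · rw [hext p hBp]
        simp [hBp]
    have r3 : ∏ l : Fin n, GG α V (rr A' l.succ) ≤ GG α V (∏ p ∈ DD A', p) * rB := by
      rw [← Finset.mul_prod_erase univ _ (mem_univ k), ← r1]
      refine mul_le_mul_of_nonneg_left ?_ (GG_nonneg hα _)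
      refine Finset.prod_le_prod (fun l _ => GG_nonneg hα _) fun l _ => ?_
      exact GG_anti hα (rr_pos hP B _) (rr_mono hP hext _)
    have r4 : ∏ p ∈ univ.erase p0, |mK K (p : ℕ) (A' p) (B p)| =
        (∏ p ∈ DD A', 1 / (p : ℝ)) * (∏ p ∈ EE' A', 1 / ((p : ℝ) * (p - 1))) *
          ∏ p : ↥P, fF K (p : ℕ) (FF A' p) := by
      simp only [DD, EE']
      rw [supp_prod, supp_prod, ← Finset.prod_mul_distrib, ← Finset.prod_mul_distrib,
        ← Finset.mul_prod_erase univ (fun p : ↥P => ((if A' p = some K then 1 / ((p : ℕ) : ℝ) else 1) *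
          if A' p = some 0 ∧ B p = none then 1 / (((p : ℕ) : ℝ) * ((p : ℕ) - 1)) else 1) *
            fF K (p : ℕ) (FF A' p)) (mem_univ p0)]
      have z : ((if A' p0 = some K then 1 / ((p0 : ℕ) : ℝ) else 1) *
          if A' p0 = some 0 ∧ B p0 = none then 1 / (((p0 : ℕ) : ℝ) * ((p0 : ℕ) - 1)) else 1) *
            fF K (p0 : ℕ) (FF A' p0) = 1 := by
        have : FF A' p0 = none := by
          simp only [FF, hA0]
          split_ifs <;> rfl
        rw [this, hA0]
        simp [fF]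
      rw [z, one_mul]
      refine Finset.prod_congr rfl fun p _ => ?_
      have hpp := pos_aux (hP p p.2)
      by_cases hBp : B p = none
      · rcases hA : A' p with _ | l
        · have : FF A' p = none := by
            simp only [FF, hA]
            split_ifs <;> rfl
          rw [this, hBp]
          simp [fF, mK]
        · by_cases hlK : l = K
          · have : FF A' p = none := by
              simp only [FF, hA, hlK]
              rw [if_neg]
              rintro ⟨-, -, h3⟩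
              exact h3 rfl
            rw [this, hBp, hlK]
            have hne : ¬ (some K = some (0 : Fin (n + 1)) ∧ (none : Option (Fin (n + 1))) = none) := by
              rintro ⟨h3, -⟩
              exact hK0 (Option.some.inj h3)
            rw [if_pos rfl, if_neg hne]
            simp [fF, mK]
          · by_cases hl0 : l = 0
            · have : FF A' p = none := by
                simp only [FF, hA, hl0]
                rw [if_neg]
                rintro ⟨-, h3, -⟩
                exact h3 rfl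
              rw [this, hBp, hl0]
              have hne : some (0 : Fin (n + 1)) ≠ some K := fun h3 => hK0 (Option.some.inj h3).symm
              rw [if_neg hne, if_pos ⟨rfl, rfl⟩]
              simp only [mK, fF, Option.elim, if_neg (Ne.symm hK0), one_mul, mul_one, abs_neg]
              exact abs_of_pos hpp
            · have : FF A' p = some l := by
                simp only [FF, hA]
                rw [if_pos]
                exact ⟨hBp, fun h3 => hl0 (Option.some.inj h3), fun h3 => hlK (Option.some.inj h3)⟩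
              have hne1 : some l ≠ some K := fun h3 => hlK (Option.some.inj h3)
              have hne2 : ¬ (some l = some (0 : Fin (n + 1)) ∧ (none : Option (Fin (n + 1))) = none) := by
                rintro ⟨h3, -⟩
                exact hl0 (Option.some.inj h3)
              rw [this, hBp, if_neg hne1, if_neg hne2]
              have hor : ¬ (l = 0 ∨ l = K) := by
                rintro (h3 | h3)
                · exact hl0 h3
                · exact hlK h3
              simp only [mK, fF, Option.elim, if_neg hlK, if_neg hor, one_mul, abs_neg]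
              exact abs_of_pos hpp
      · have hFp : FF A' p = none := by
          simp only [FF]
          rw [if_neg]
          rintro ⟨h3, -⟩
          exact hBp h3
        rw [hFp, hext p hBp]
        rcases hb : B p with _ | b
        · exact absurd hb hBp
        · have hbK : b ≠ K := fun h3 => hB p (by rw [hb, h3])
          have hne1 : some b ≠ some K := fun h3 => hbK (Option.some.inj h3)
          rw [if_neg hne1, if_neg (by rintro ⟨-, h3⟩; exact absurd h3 (by simp))]
          simp [mK, fF, hbK]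
    have hpos1 : 0 ≤ ∏ p ∈ univ.erase p0, |mK K (p : ℕ) (A' p) (B p)| :=
      Finset.prod_nonneg fun p _ => abs_nonneg _
    calc (∏ p ∈ univ.erase p0, |mK K (p : ℕ) (A' p) (B p)|) *
          ((∏ l : Fin n, GG α V (rr A' l.succ)) * σ (rr A' 0)) ≤
        (∏ p ∈ univ.erase p0, |mK K (p : ℕ) (A' p) (B p)|) *
          ((GG α V (∏ p ∈ DD A', p) * rB) * σ (rr A' 0)) := by
          refine mul_le_mul_of_nonneg_left (mul_le_mul_of_nonneg_right r3 (hσ _)) hpos1
      _ = h (Φ A') := by
          rw [r4, r2]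
          simp only [h, Φ]
          ring
  -- assembling
  have hL : ∑ A' : Cfg P n with A' p0 = none,
      (∏ p ∈ univ.erase p0, |mK K (p : ℕ) (A' p) (B p)|) *
        ((∏ l : Fin n, GG α V (rr A' l.succ)) * σ (rr A' 0)) =
      ∑ A' ∈ s, (∏ p ∈ univ.erase p0, |mK K (p : ℕ) (A' p) (B p)|) *
        ((∏ l : Fin n, GG α V (rr A' l.succ)) * σ (rr A' 0)) := by
    symm
    refine Finset.sum_subset ?_ ?_
    · intro A' hA'
      rw [hs, mem_filter] at hA'
      rw [mem_filter]
      exact ⟨mem_univ _, hA'.2.1⟩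
    · intro A' hA' hnot
      rw [mem_filter] at hA'
      have : ∃ p, B p ≠ none ∧ A' p ≠ B p := by
        by_contra hc
        push Not at hc
        exact hnot (by rw [hs, mem_filter]; exact ⟨mem_univ _, hA'.2, hc⟩)
      obtain ⟨p, hp1, hp2⟩ := this
      have hpne : p ≠ p0 := fun h3 => hp1 (by rw [h3]; exact hB0)
      have hz : |mK K (p : ℕ) (A' p) (B p)| = 0 := by
        rcases hb : B p with _ | b
        · exact absurd hb hp1
        · rcases ha : A' p with _ | a
          · simp [mK]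
          · have hab : a ≠ b := fun h3 => hp2 (by rw [ha, hb, h3])
            simp [mK, hab]
      rw [Finset.prod_eq_zero (Finset.mem_erase.2 ⟨hpne, mem_univ p⟩) hz, zero_mul]
  rw [hL]
  calc ∑ A' ∈ s, (∏ p ∈ univ.erase p0, |mK K (p : ℕ) (A' p) (B p)|) *
        ((∏ l : Fin n, GG α V (rr A' l.succ)) * σ (rr A' 0)) ≤ ∑ A' ∈ s, h (Φ A') :=
        Finset.sum_le_sum hterm
    _ = ∑ x ∈ s.image Φ, h x := (Finset.sum_image hinj).symm
    _ ≤ ∑ x ∈ P.powerset ×ˢ (P.powerset ×ˢ (univ : Finset (Cfg P n))), h x := by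
        refine Finset.sum_le_sum_of_subset_of_nonneg ?_ fun x hx _ => hh0 x hx
        intro x hx
        rw [mem_image] at hx
        obtain ⟨A', -, rfl⟩ := hx
        rw [mem_product, mem_product]
        exact ⟨supp_sub _, supp_sub _, mem_univ _⟩
    _ = (∑ D ∈ P.powerset, (∏ p ∈ D, 1 / (p : ℝ)) * GG α V (∏ p ∈ D, p)) *
      (∑ E ∈ P.powerset, (∏ p ∈ E, 1 / ((p : ℝ) * (p - 1))) * σ (rr B 0 * ∏ p ∈ E, p)) *
      (∑ F : Cfg P n, ∏ p : ↥P, fF K (p : ℕ) (F p)) * rB := by
        rw [Finset.sum_product, Finset.sum_mul_sum, Finset.sum_mul, Finset.sum_mul]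
        refine Finset.sum_congr rfl fun D _ => ?_
        rw [Finset.sum_product, Finset.sum_mul, Finset.sum_mul]
        refine Finset.sum_congr rfl fun E _ => ?_
        rw [Finset.mul_sum, Finset.sum_mul]
    _ ≤ _ := by
        refine mul_le_mul_of_nonneg_right (mul_le_mul_of_nonneg_left ?_ ?_) hrB0
        · have e1 : ∑ F : Cfg P n, ∏ p : ↥P, fF K (p : ℕ) (F p) = ∏ p : ↥P, ∑ o, fF K (p : ℕ) o := by
            rw [Finset.prod_univ_sum, Fintype.piFinset_univ]
          rw [e1, ← Finset.prod_coe_sort P]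
          exact Finset.prod_le_prod (fun p _ => Finset.sum_nonneg fun o _ => fF_nonneg K (hP p p.2) o)
            fun p _ => fF_sum K (hP p p.2)
        · refine mul_nonneg (Finset.sum_nonneg fun D _ => ?_) (Finset.sum_nonneg fun E hE => ?_)
          · exact mul_nonneg (Finset.prod_nonneg fun p _ => by positivity) (GG_nonneg hα _)
          · exact mul_nonneg (Finset.prod_nonneg fun p hp =>
              (pos_aux (hP p (mem_powerset.1 hE hp))).le) (hσ _)

/-- sums over sets of primes to sums over squarefree numbers -/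
theorem powerset_le_SF (W : ℕ) (Y V : ℝ) (f : ℕ → ℝ) (hf : ∀ a, 0 ≤ f a)
    (hfV : ∀ a : ℕ, V < a → f a = 0) :
    ∑ D ∈ (PP W Y).powerset, (∏ p ∈ D, 1 / (p : ℝ)) * f (∏ p ∈ D, p) ≤ ∑ a ∈ SF W V, f a / a := by
  classical
  have hinj : Set.InjOn (fun D : Finset ℕ => ∏ p ∈ D, p)
      (((PP W Y).powerset.filter (fun D => ((∏ p ∈ D, p : ℕ) : ℝ) ≤ V) : Finset (Finset ℕ)) :
        Set (Finset ℕ)) := by
    intro D1 h1 D2 h2 h12
    rw [Finset.mem_coe, mem_filter, mem_powerset] at h1 h2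
    have e1 := Nat.primeFactors_prod (s := D1) fun p hp => PP_prime (h1.1 hp)
    have e2 := Nat.primeFactors_prod (s := D2) fun p hp => PP_prime (h2.1 hp)
    rw [← e1, ← e2]
    exact congrArg Nat.primeFactors h12
  have e3 : ∑ D ∈ (PP W Y).powerset, (∏ p ∈ D, 1 / (p : ℝ)) * f (∏ p ∈ D, p) =
      ∑ D ∈ (PP W Y).powerset.filter (fun D => ((∏ p ∈ D, p : ℕ) : ℝ) ≤ V),
        f (∏ p ∈ D, p) / ((∏ p ∈ D, p : ℕ) : ℝ) := by
    rw [Finset.sum_filter]
    refine Finset.sum_congr rfl fun D _ => ?_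
    split_ifs with h
    · rw [Finset.prod_div_distrib, Finset.prod_const_one]
      push_cast
      ring
    · rw [hfV _ (not_le.1 h), mul_zero]
  rw [e3, ← Finset.sum_image (f := fun a : ℕ => f a / (a : ℝ)) hinj]
  refine Finset.sum_le_sum_of_subset_of_nonneg ?_ fun a _ _ => div_nonneg (hf a) (by positivity)
  intro a ha
  rw [mem_image] at ha
  obtain ⟨D, hD, rfl⟩ := ha
  rw [mem_filter, mem_powerset] at hD
  unfold SF
  rw [mem_filter, mem_Icc]
  refine ⟨⟨Nat.succ_le_of_lt (Finset.prod_pos fun p hp => (PP_prime (hD.1 hp)).pos),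
    Nat.le_floor hD.2⟩, ?_, ?_⟩
  · have : ∀ E : Finset ℕ, (∀ p ∈ E, p.Prime) → Squarefree (∏ p ∈ E, p) := by
      intro E
      induction E using Finset.induction_on with
      | empty => intro _; simp
      | insert q E hq ih =>
        intro hE
        rw [Finset.prod_insert hq, Nat.squarefree_mul]
        · exact ⟨(hE q (Finset.mem_insert_self q E)).prime.squarefree,
            ih fun p hp => hE p (Finset.mem_insert_of_mem hp)⟩
        · refine Nat.Coprime.prod_right fun p hp => ?_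
          rw [Nat.coprime_primes (hE q (Finset.mem_insert_self q E))
            (hE p (Finset.mem_insert_of_mem hp))]
          rintro rfl
          exact hq hp
    exact this D fun p hp => PP_prime (hD.1 hp)
  · refine Nat.Coprime.prod_left fun p hp => ?_
    exact (Nat.Prime.coprime_iff_not_dvd (PP_prime (hD.1 hp))).2 (PP_ndvd (hD.1 hp))

/-- the combination of the values at `p₀` -/
theorem cbu_local (hP : ∀ p ∈ P, p.Prime) {R0 R V α : ℝ} (hα : 0 ≤ α) (p0 : ↥P) (A : Cfg P n)
    (hA : A p0 = none) :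
    |∑ o, mB n (p0 : ℕ) o none * yv R0 R V α (Function.update A p0 o)| ≤
      (∏ l : Fin n, GG α V (rr A l.succ)) *
      ((if R0 / (p0 : ℕ) < (rr A 0 : ℝ) ∧ (rr A 0 : ℝ) ≤ R0 then 1 else 0) +
        (n + 1) / ((p0 : ℕ) : ℝ) * (if (rr A 0 : ℝ) ≤ R0 then 1 else 0)) := by
  have hp0 : (1 : ℝ) < ((p0 : ℕ) : ℝ) := by exact_mod_cast (hP p0 p0.2).one_lt
  have hp0' : (0 : ℝ) < ((p0 : ℕ) : ℝ) := by linarith
  set q : ℝ := ((p0 : ℕ) : ℝ) with hq
  set rest : ℝ := ∏ l : Fin n, GG α V (rr A l.succ) with hrest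
  have hrest0 : 0 ≤ rest := Finset.prod_nonneg fun l _ => GG_nonneg hα _
  set y0 := yv R0 R V α A with hy0
  set yz := yv R0 R V α (Function.update A p0 (some 0)) with hyz
  have hyn : ∀ C : Cfg P n, 0 ≤ yv R0 R V α C := by
    intro C
    unfold yv
    split_ifs
    · exact Finset.prod_nonneg fun l _ => GG_nonneg hα _
    · exact le_rfl
  -- the value at label zero
  have u0 : (rr (Function.update A p0 (some 0)) 0 : ℝ) = q * rr A 0 := by
    rw [rr_update_some A p0 hA, if_pos rfl]
    push_cast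
    rfl
  have u1 : ∀ l : Fin n, rr (Function.update A p0 (some 0)) l.succ = rr A l.succ := by
    intro l
    rw [rr_update_some A p0 hA, if_neg (Fin.succ_ne_zero l), one_mul]
  have hr0 : (0 : ℝ) < rr A 0 := by exact_mod_cast rr_pos hP A 0
  set c : Prop := (∏ l : Fin n, (rr A l.succ : ℝ)) ≤ R with hc
  have ey0 : y0 = if (rr A 0 : ℝ) ≤ R0 ∧ c then rest else 0 := rfl
  have eyz : yz = if q * rr A 0 ≤ R0 ∧ c then rest else 0 := by
    rw [hyz]
    unfold yv
    rw [u0]
    simp only [u1]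
    rfl
  have hle : yz ≤ y0 := by
    rw [ey0, eyz]
    by_cases h1 : q * rr A 0 ≤ R0 ∧ c
    · have h2 : (rr A 0 : ℝ) ≤ R0 ∧ c := ⟨by nlinarith [h1.1], h1.2⟩
      rw [if_pos h1, if_pos h2]
    · rw [if_neg h1]
      split_ifs
      · exact hrest0
      · exact le_rfl
  have hdiff : y0 - yz ≤ rest * (if R0 / q < (rr A 0 : ℝ) ∧ (rr A 0 : ℝ) ≤ R0 then 1 else 0) := by
    rw [ey0, eyz]
    by_cases h2 : (rr A 0 : ℝ) ≤ R0 ∧ c
    · by_cases h1 : q * rr A 0 ≤ R0
      · rw [if_pos h2, if_pos ⟨h1, h2.2⟩, sub_self]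
        split_ifs
        · linarith
        · linarith
      · have h3 : R0 / q < (rr A 0 : ℝ) := by
          rw [div_lt_iff₀ hp0']
          linarith [not_le.1 h1, mul_comm q (rr A 0 : ℝ)]
        rw [if_pos h2, if_neg (fun h4 => h1 h4.1), if_pos ⟨h3, h2.1⟩]
        linarith
    · rw [if_neg h2]
      have h5 : 0 ≤ rest * (if R0 / q < (rr A 0 : ℝ) ∧ (rr A 0 : ℝ) ≤ R0 then 1 else 0) := by
        split_ifs
        · linarith
        · linarith
      split_ifs at * <;> linarith
  set I0 : ℝ := if (rr A 0 : ℝ) ≤ R0 then 1 else 0 with hI0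
  have hy0le : y0 ≤ rest * I0 := by
    rw [ey0, hI0]
    by_cases h2 : (rr A 0 : ℝ) ≤ R0 ∧ c
    · rw [if_pos h2, if_pos h2.1, mul_one]
    · rw [if_neg h2]
      split_ifs
      · linarith
      · linarith
  have hyl : ∀ i : Fin n, yv R0 R V α (Function.update A p0 (some i.succ)) ≤ rest * I0 := by
    intro i
    unfold yv
    have v0 : (rr (Function.update A p0 (some i.succ)) 0 : ℝ) = rr A 0 := by
      rw [rr_update_some A p0 hA, if_neg (Fin.succ_ne_zero i).symm, one_mul]
    rw [v0]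
    have hGle : ∏ l : Fin n, GG α V (rr (Function.update A p0 (some i.succ)) l.succ) ≤ rest := by
      refine Finset.prod_le_prod (fun l _ => GG_nonneg hα _) fun l _ => ?_
      refine GG_anti hα (rr_pos hP A _) ?_
      rw [rr_update_some A p0 hA]
      split_ifs
      · exact Nat.le_mul_of_pos_left _ (hP p0 p0.2).pos
      · rw [one_mul]
    rw [hI0]
    split_ifs with h1 h2 h2
    · rw [mul_one]; exact hGle
    · exact absurd h1.1 h2
    · linarith
    · linarith
  have hexp : ∑ o, mB n (p0 : ℕ) o none * yv R0 R V α (Function.update A p0 o) =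
      (y0 - yz) + 1 / q * yz + 1 / q * ∑ i : Fin n, yv R0 R V α (Function.update A p0 (some i.succ)) := by
    rw [Fintype.sum_option, Fin.sum_univ_succ]
    have w1 : Function.update A p0 none = A := by
      rw [← hA, Function.update_eq_self]
    have w2 : ∀ i : Fin n, mB n (p0 : ℕ) (some i.succ) none = 1 / q := by
      intro i
      simp only [mB, if_neg (Fin.succ_ne_zero i)]
      rfl
    have w3 : mB n (p0 : ℕ) (some 0) none = 1 / q - 1 := by
      simp only [mB, if_pos]
      rfl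
    have w4 : mB n (p0 : ℕ) none none = 1 := rfl
    rw [w1, w3, w4]
    simp only [w2]
    rw [← Finset.mul_sum]
    ring
  have hsum0 : 0 ≤ ∑ i : Fin n, yv R0 R V α (Function.update A p0 (some i.succ)) :=
    Finset.sum_nonneg fun i _ => hyn _
  have hsum : ∑ i : Fin n, yv R0 R V α (Function.update A p0 (some i.succ)) ≤ n * (rest * I0) := by
    calc ∑ i : Fin n, yv R0 R V α (Function.update A p0 (some i.succ)) ≤
        ∑ _i : Fin n, rest * I0 := Finset.sum_le_sum fun i _ => hyl i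
      _ = n * (rest * I0) := by
        rw [Finset.sum_const, Finset.card_univ, Fintype.card_fin, nsmul_eq_mul]
  have hinv : 0 < 1 / q := by positivity
  rw [hexp, abs_of_nonneg (by
    have := hyn (Function.update A p0 (some 0))
    have h1 : 0 ≤ 1 / q * yz := mul_nonneg hinv.le this
    have h2 : 0 ≤ 1 / q * ∑ i : Fin n, yv R0 R V α (Function.update A p0 (some i.succ)) :=
      mul_nonneg hinv.le hsum0
    linarith)]
  have h1 : 1 / q * yz ≤ 1 / q * (rest * I0) := mul_le_mul_of_nonneg_left (hle.trans hy0le) hinv.le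
  have h2 : 1 / q * ∑ i : Fin n, yv R0 R V α (Function.update A p0 (some i.succ)) ≤
      1 / q * (n * (rest * I0)) := mul_le_mul_of_nonneg_left hsum hinv.le
  have h3 : (n + 1) / q * I0 * rest = 1 / q * (rest * I0) + 1 / q * (n * (rest * I0)) := by ring
  calc (y0 - yz) + 1 / q * yz +
        1 / q * ∑ i : Fin n, yv R0 R V α (Function.update A p0 (some i.succ)) ≤
      rest * (if R0 / q < (rr A 0 : ℝ) ∧ (rr A 0 : ℝ) ≤ R0 then 1 else 0) +
        (n + 1) / q * I0 * rest := by rw [h3]; linarith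
    _ = _ := by ring

end

end H48

open H48 in
/-- CBU for a general set of primes -/
theorem H48.cbu_gen {P : Finset ℕ} {n : ℕ} (hP : ∀ p ∈ P, p.Prime) (hPw : ∀ p ∈ P, 3 * n + 4 < p)
    (W : ℕ) (R0 R V α : ℝ) (hα : 0 ≤ α)
    (sD : ∑ D ∈ P.powerset, (∏ p ∈ D, 1 / (p : ℝ)) * GG α V (∏ p ∈ D, p) ≤ A1s W V α)
    (k : Fin n) (p0 : ↥P) (B : Cfg P n) (hB : Avoid k.succ B) (hB0 : B p0 = none) :
    |ltrans (mKB k.succ (p0 : ℕ)) (yv R0 R V α) B| ≤ 2 * A1s W V α *
      (∏ l ∈ univ.erase k, GG α V (rr B l.succ)) * sgm n P R0 p0 (rr B 0) := by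
  classical
  set K : Fin (n + 1) := k.succ with hK
  set rB : ℝ := ∏ l ∈ univ.erase k, GG α V (rr B l.succ) with hrB
  have hrB0 : 0 ≤ rB := Finset.prod_nonneg fun l _ => GG_nonneg hα _
  set q : ℝ := ((p0 : ℕ) : ℝ) with hq
  have hq0 : 0 < q := by
    have : 0 < (p0 : ℕ) := (hP p0 p0.2).pos
    rw [hq]; exact_mod_cast this
  let σ : ℕ → ℝ := fun r => (if R0 / q < (r : ℝ) ∧ (r : ℝ) ≤ R0 then 1 else 0) +
    (n + 1) / q * (if (r : ℝ) ≤ R0 then 1 else 0)
  have hσ : ∀ r, 0 ≤ σ r := by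
    intro r
    have h1 : (0 : ℝ) ≤ (n + 1) / q := by positivity
    refine add_nonneg ?_ (mul_nonneg h1 ?_) <;> split_ifs <;> norm_num
  -- step 1
  have step1 : |ltrans (mKB K (p0 : ℕ)) (yv R0 R V α) B| ≤
      ∑ A' : Cfg P n with A' p0 = none,
      (∏ p ∈ univ.erase p0, |mK K (p : ℕ) (A' p) (B p)|) *
        ((∏ l : Fin n, GG α V (rr A' l.succ)) * σ (rr A' 0)) := by
    unfold ltrans
    rw [cbu_split p0]
    refine (Finset.abs_sum_le_sum_abs _ _).trans (Finset.sum_le_sum fun A' hA' => ?_)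
    rw [mem_filter] at hA'
    have e1 : ∑ o, yv R0 R V α (Function.update A' p0 o) *
        ∏ p : ↥P, mKB K (p0 : ℕ) (p : ℕ) (Function.update A' p0 o p) (B p) =
        (∏ p ∈ univ.erase p0, mK K (p : ℕ) (A' p) (B p)) *
          ∑ o, mB n (p0 : ℕ) o none * yv R0 R V α (Function.update A' p0 o) := by
      rw [Finset.mul_sum]
      refine Finset.sum_congr rfl fun o _ => ?_
      rw [← Finset.mul_prod_erase univ _ (mem_univ p0), Function.update_self, hB0]
      have e2 : mKB K (p0 : ℕ) (p0 : ℕ) o none = mB n (p0 : ℕ) o none := by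
        unfold mKB
        rw [if_pos rfl]
      have e3 : ∏ p ∈ univ.erase p0, mKB K (p0 : ℕ) (p : ℕ) (Function.update A' p0 o p) (B p) =
          ∏ p ∈ univ.erase p0, mK K (p : ℕ) (A' p) (B p) := by
        refine Finset.prod_congr rfl fun p hp => ?_
        have hne := Finset.ne_of_mem_erase hp
        rw [Function.update_of_ne hne]
        unfold mKB
        rw [if_neg (fun h => hne (Subtype.ext h))]
      rw [e2, e3]
      ring
    rw [e1, abs_mul, Finset.abs_prod]
    refine mul_le_mul_of_nonneg_left ?_ (Finset.prod_nonneg fun p _ => abs_nonneg _)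
    exact cbu_local hP hα p0 A' hA'.2
  refine step1.trans ((cbu_key hP hα k p0 B hB hB0 σ hσ).trans ?_)
  have sD0 : 0 ≤ ∑ D ∈ P.powerset, (∏ p ∈ D, 1 / (p : ℝ)) * GG α V (∏ p ∈ D, p) :=
    Finset.sum_nonneg fun D _ => mul_nonneg (Finset.prod_nonneg fun p _ => by positivity)
      (GG_nonneg hα _)
  -- bounds for products
  have hx0 : ∀ p ∈ P, 0 ≤ 1 / ((p : ℝ) * (p - 1)) := fun p hp => (pos_aux (hP p hp)).le
  have hsum := sum_bound P (3 * n + 4) (by omega) hPw
  have hN : ((3 * n + 4 : ℕ) : ℝ) = 3 * n + 4 := by push_cast; ring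
  have b1 : ∏ p ∈ P, (1 + n * (1 / ((p : ℝ) * (p - 1)))) ≤ 3 / 2 := by
    have := prod_bound' P (fun p => n * (1 / ((p : ℝ) * (p - 1)))) (fun p hp =>
      mul_nonneg (by positivity) (hx0 p hp)) (b := 1 / 3) (by norm_num) (by
        rw [← Finset.mul_sum]
        calc (n : ℝ) * ∑ p ∈ P, 1 / ((p : ℝ) * (p - 1)) ≤ n * (1 / ((3 * n + 4 : ℕ) : ℝ)) :=
              mul_le_mul_of_nonneg_left hsum (by positivity)
          _ ≤ 1 / 3 := by
              rw [hN, mul_one_div, div_le_div_iff₀ (by positivity) (by norm_num)]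
              linarith)
    exact this.trans (by norm_num)
  have b2 : ∏ p ∈ P, (1 + 1 / ((p : ℝ) * (p - 1))) ≤ 4 / 3 := by
    have := prod_bound' P (fun p => 1 / ((p : ℝ) * (p - 1))) hx0 (b := 1 / 4) (by norm_num) (by
        refine hsum.trans ?_
        rw [hN, div_le_div_iff₀ (by positivity) (by norm_num)]
        have : (0 : ℝ) ≤ n := by positivity
        linarith)
    exact this.trans (by norm_num)
  have b1' : 0 ≤ ∏ p ∈ P, (1 + n * (1 / ((p : ℝ) * (p - 1)))) := Finset.prod_nonneg fun p hp => by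
    have := mul_nonneg (Nat.cast_nonneg (α := ℝ) n) (hx0 p hp)
    linarith
  -- the sum over `E`
  set r := rr B 0 with hr
  have hsig0 : 0 ≤ sig1 P R0 (p0 : ℕ) r := by
    unfold sig1
    refine Finset.sum_nonneg fun E hE => mul_nonneg (Finset.prod_nonneg fun p hp =>
      hx0 p (mem_powerset.1 hE hp)) ?_
    split_ifs <;> norm_num
  set I0 : ℝ := if (r : ℝ) ≤ R0 then 1 else 0 with hI0
  have hI00 : 0 ≤ I0 := by rw [hI0]; split_ifs <;> norm_num
  have sE : ∑ E ∈ P.powerset, (∏ p ∈ E, 1 / ((p : ℝ) * (p - 1))) * σ (r * ∏ p ∈ E, p) ≤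
      4 / 3 * sgm n P R0 (p0 : ℕ) r := by
    have e1 : ∑ E ∈ P.powerset, (∏ p ∈ E, 1 / ((p : ℝ) * (p - 1))) * σ (r * ∏ p ∈ E, p) =
        sig1 P R0 (p0 : ℕ) r + (n + 1) / q * ∑ E ∈ P.powerset,
          (∏ p ∈ E, 1 / ((p : ℝ) * (p - 1))) * (if (r : ℝ) * ∏ p ∈ E, (p : ℝ) ≤ R0 then 1 else 0) := by
      unfold sig1
      rw [Finset.mul_sum, ← Finset.sum_add_distrib]
      refine Finset.sum_congr rfl fun E _ => ?_
      have : ((r * ∏ p ∈ E, p : ℕ) : ℝ) = (r : ℝ) * ∏ p ∈ E, (p : ℝ) := by push_cast; rfl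
      simp only [σ, this]
      ring
    have e2 : ∑ E ∈ P.powerset, (∏ p ∈ E, 1 / ((p : ℝ) * (p - 1))) *
        (if (r : ℝ) * ∏ p ∈ E, (p : ℝ) ≤ R0 then 1 else 0) ≤ 4 / 3 * I0 := by
      calc ∑ E ∈ P.powerset, (∏ p ∈ E, 1 / ((p : ℝ) * (p - 1))) *
            (if (r : ℝ) * ∏ p ∈ E, (p : ℝ) ≤ R0 then 1 else 0) ≤
          ∑ E ∈ P.powerset, (∏ p ∈ E, 1 / ((p : ℝ) * (p - 1))) * I0 := by
            refine Finset.sum_le_sum fun E hE => mul_le_mul_of_nonneg_left ?_
              (Finset.prod_nonneg fun p hp => hx0 p (mem_powerset.1 hE hp))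
            rw [hI0]
            split_ifs with h1 h2 h2
            · exact le_rfl
            · exfalso
              apply h2
              have h3 : (1 : ℝ) ≤ ∏ p ∈ E, (p : ℝ) := by
                have h5 : 1 ≤ ∏ p ∈ E, p := Nat.succ_le_of_lt (Finset.prod_pos fun p hp =>
                  (hP p (mem_powerset.1 hE hp)).pos)
                have h6 : ((1 : ℕ) : ℝ) ≤ ((∏ p ∈ E, p : ℕ) : ℝ) := Nat.cast_le.2 h5
                rwa [Nat.cast_one, Nat.cast_prod] at h6
              have h4 : (0 : ℝ) ≤ r := by positivity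
              nlinarith
            · norm_num
            · exact le_rfl
        _ = (∏ p ∈ P, (1 + 1 / ((p : ℝ) * (p - 1)))) * I0 := by
            rw [← Finset.sum_mul, Finset.prod_one_add]
        _ ≤ 4 / 3 * I0 := mul_le_mul_of_nonneg_right b2 hI00
    rw [e1]
    have e3 : sgm n P R0 (p0 : ℕ) r = sig1 P R0 (p0 : ℕ) r + (n + 1) / q * I0 := rfl
    rw [e3]
    have e4 : (n + 1) / q * ∑ E ∈ P.powerset, (∏ p ∈ E, 1 / ((p : ℝ) * (p - 1))) *
        (if (r : ℝ) * ∏ p ∈ E, (p : ℝ) ≤ R0 then 1 else 0) ≤ (n + 1) / q * (4 / 3 * I0) :=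
      mul_le_mul_of_nonneg_left e2 (by positivity)
    linarith
  have sE0 : 0 ≤ ∑ E ∈ P.powerset, (∏ p ∈ E, 1 / ((p : ℝ) * (p - 1))) * σ (r * ∏ p ∈ E, p) :=
    Finset.sum_nonneg fun E hE => mul_nonneg (Finset.prod_nonneg fun p hp =>
      hx0 p (mem_powerset.1 hE hp)) (hσ _)
  have hA0 : 0 ≤ A1s W V α := sD0.trans sD
  have hg0 : 0 ≤ sgm n P R0 (p0 : ℕ) r := by
    have e3 : sgm n P R0 (p0 : ℕ) r = sig1 P R0 (p0 : ℕ) r + (n + 1) / q * I0 := rfl
    rw [e3]
    have : 0 ≤ (n + 1) / q * I0 := by positivity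
    linarith
  calc (∑ D ∈ P.powerset, (∏ p ∈ D, 1 / (p : ℝ)) * GG α V (∏ p ∈ D, p)) *
      (∑ E ∈ P.powerset, (∏ p ∈ E, 1 / ((p : ℝ) * (p - 1))) * σ (r * ∏ p ∈ E, p)) *
      (∏ p ∈ P, (1 + n * (1 / ((p : ℝ) * (p - 1))))) * rB ≤
      A1s W V α * (4 / 3 * sgm n P R0 (p0 : ℕ) r) * (3 / 2) * rB := by
        refine mul_le_mul_of_nonneg_right ?_ hrB0
        refine mul_le_mul (mul_le_mul sD sE sE0 hA0) b1 b1' ?_
        exact mul_nonneg hA0 (mul_nonneg (by norm_num) hg0)
    _ = 2 * A1s W V α * rB * sgm n P R0 (p0 : ℕ) r := by ring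

open H48 in
/-- CBU -/
theorem CBU : S_CBU := by
  intro n
  refine ⟨3 * n + 4, ?_⟩
  intro W hW0 hW Y R0 R V α hα k p0 B hB hB0
  refine cbu_gen (fun p hp => PP_prime hp) (fun p hp => PP_gt hW hp) W R0 R V α hα ?_ k p0 B hB hB0
  unfold A1s
  refine powerset_le_SF W Y V (GG α V) (GG_nonneg hα) ?_
  intro a ha
  unfold GG
  rw [if_neg (not_le.2 ha)]

end MTA
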