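import Pool.Agent.H48.MTA.Base

/-!
# Project MTA, module MODEL
-/

set_option autoImplicit false

namespace MTA
open Finset

namespace H48

theorem one_mem_SF (W : ℕ) (y : ℝ) (hy : 1 ≤ y) : 1 ∈ SF W y := by
  unfold SF
  rw [mem_filter, mem_Icc]
  exact ⟨⟨le_rfl, Nat.le_floor (by simpa using hy)⟩, squarefree_one, Nat.coprime_one_left W⟩

theorem one_le_Msum (W : ℕ) (y : ℝ) (hy : 1 ≤ y) : 1 ≤ Msum W y := by
  unfold Msum
  refine le_trans ?_ (Finset.single_le_sum (f := fun a : ℕ => (1 : ℝ) / a)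
    (fun a _ => by positivity) (one_mem_SF W y hy))
  simp

theorem GG_one (α V : ℝ) (hV : 1 ≤ V) : GG α V 1 = 1 := by
  unfold GG
  rw [if_pos (by simpa using hV)]
  simp

theorem one_le_A1s (W : ℕ) (V α : ℝ) (hα : 0 ≤ α) (hV : 1 ≤ V) : 1 ≤ A1s W V α := by
  unfold A1s
  refine le_trans ?_ (Finset.single_le_sum (f := fun a : ℕ => GG α V a / a)
    (fun a _ => div_nonneg (GG_nonneg hα a) (by positivity)) (one_mem_SF W V hV))
  simp [GG_one α V hV]

theorem one_le_A2s (W : ℕ) (V α : ℝ) (hV : 1 ≤ V) : 1 ≤ A2s W V α := by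
  unfold A2s
  refine le_trans ?_ (Finset.single_le_sum (f := fun a : ℕ => GG α V a ^ 2 / a)
    (fun a _ => by positivity) (one_mem_SF W V hV))
  simp [GG_one α V hV]

theorem Msum_nonneg (W : ℕ) (y : ℝ) : 0 ≤ Msum W y := by
  unfold Msum
  exact Finset.sum_nonneg fun a _ => by positivity

/-- windows -/
theorem window (W : ℕ) (κ C : ℝ) (hκ : 0 < κ) (hC : 1 ≤ C)
    (hMs : ∀ y : ℝ, 1 ≤ y → |Msum W y - κ * Real.log y| ≤ C) (p : ℕ) (hp : 2 ≤ p) (y : ℝ)
    (hy : 0 < y) : Msum W y - Msum W (y / p) ≤ κ * Real.log p + 2 * C := by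
  have hp1 : (1 : ℝ) < p := by exact_mod_cast (by omega : 1 < p)
  have hp0 : (0 : ℝ) < p := by linarith
  have hlp : 0 ≤ Real.log p := Real.log_nonneg hp1.le
  by_cases h1 : 1 ≤ y / p
  · have h2 : (p : ℝ) ≤ y := by rwa [le_div_iff₀ hp0, one_mul] at h1
    have h3 := (abs_le.1 (hMs y (by linarith))).2
    have h4 := (abs_le.1 (hMs (y / p) h1)).1
    have h5 : Real.log (y / p) = Real.log y - Real.log p := Real.log_div hy.ne' hp0.ne'
    rw [h5] at h4
    nlinarith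
  · have h0 := Msum_nonneg W (y / p)
    have hkl : 0 ≤ κ * Real.log p := mul_nonneg hκ.le hlp
    by_cases h2 : 1 ≤ y
    · have h3 := (abs_le.1 (hMs y h2)).2
      have h4 : y < p := by
        rw [not_le, div_lt_one hp0] at h1
        exact h1
      have h5 : Real.log y ≤ Real.log p := Real.log_le_log hy h4.le
      have h6 := mul_le_mul_of_nonneg_left h5 hκ.le
      linarith
    · have h3 : Msum W y = 0 := by
        unfold Msum SF
        have : ⌊y⌋₊ = 0 := Nat.floor_eq_zero.2 (not_le.1 h2)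
        rw [this]
        simp
      rw [h3]
      linarith

/-- the sum over the bad primes -/
theorem bad_sum (W w0 n : ℕ) (z κ C C0 C' D0 : ℝ) (_hz : 3 ≤ z) (hκ : 0 < κ) (hC : 1 ≤ C)
    (hC0 : 1 ≤ C0) (hD0 : 0 ≤ D0) (hw : ∀ p ∈ PP W z, w0 < p) (hw0 : 16 * C0 * (n + 1) ^ 2 ≤ w0)
    (hM1 : ∑ p ∈ (Icc 2 ⌊z⌋₊).filter Nat.Prime, Real.log p / ((p : ℝ) - 1) ≤ Real.log z + C')
    (hM2 : ∑ p ∈ (Icc 2 ⌊z⌋₊).filter Nat.Prime, 1 / ((p : ℝ) - 1) ≤
      Real.log (Real.log z) + C') :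
    ∑ p ∈ PP W z, 1 / ((p : ℝ) - 1) * (C0 * (κ * Real.log p + 2 * C) +
      C0 * (n + 1) ^ 2 / (p : ℝ) ^ 2 * D0) ≤
    C0 * κ * (Real.log z + C') + 2 * C * C0 * (Real.log (Real.log z) + C') + D0 / 16 := by
  have hsub : PP W z ⊆ (Icc 2 ⌊z⌋₊).filter Nat.Prime := by
    intro p hp
    unfold PP at hp
    rw [mem_filter] at hp ⊢
    exact ⟨hp.1, hp.2.1⟩
  have hp1 : ∀ p : ℕ, p.Prime → (1 : ℝ) < p := fun p hp => by exact_mod_cast hp.one_lt
  have e1 : ∑ p ∈ PP W z, Real.log p / ((p : ℝ) - 1) ≤ Real.log z + C' := by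
    refine le_trans (Finset.sum_le_sum_of_subset_of_nonneg hsub fun p hp _ => ?_) hM1
    have h1 := hp1 p (mem_filter.1 hp).2
    exact div_nonneg (Real.log_nonneg h1.le) (by linarith)
  have e2 : ∑ p ∈ PP W z, 1 / ((p : ℝ) - 1) ≤ Real.log (Real.log z) + C' := by
    refine le_trans (Finset.sum_le_sum_of_subset_of_nonneg hsub fun p hp _ => ?_) hM2
    have h1 := hp1 p (mem_filter.1 hp).2
    exact div_nonneg zero_le_one (by linarith)
  have hw01 : 1 ≤ w0 := by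
    have h1 : (1 : ℝ) ≤ 16 * C0 * (n + 1) ^ 2 := by
      have h2 : (1 : ℝ) ≤ (n + 1) ^ 2 := by
        have : (0 : ℝ) ≤ n := by positivity
        nlinarith
      nlinarith
    exact_mod_cast h1.trans hw0
  have hw0p : (0 : ℝ) < w0 := by exact_mod_cast hw01
  have e3 : ∑ p ∈ PP W z, 1 / ((p : ℝ) - 1) * (1 / (p : ℝ) ^ 2) ≤ 1 / (w0 : ℝ) := by
    refine le_trans (Finset.sum_le_sum fun p hp => ?_) (sum_bound (PP W z) w0 hw01 hw)
    have h1 := hp1 p (PP_prime hp)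
    have h2 : (0 : ℝ) < (p : ℝ) - 1 := by linarith
    rw [← one_div_mul_one_div, mul_comm (1 / (p : ℝ))]
    refine mul_le_mul_of_nonneg_left ?_ (by positivity)
    apply one_div_le_one_div_of_le (by linarith)
    nlinarith
  have e4 : ∑ p ∈ PP W z, 1 / ((p : ℝ) - 1) * (C0 * (κ * Real.log p + 2 * C) +
      C0 * (n + 1) ^ 2 / (p : ℝ) ^ 2 * D0) =
      C0 * κ * ∑ p ∈ PP W z, Real.log p / ((p : ℝ) - 1) +
      2 * C * C0 * ∑ p ∈ PP W z, 1 / ((p : ℝ) - 1) +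
      C0 * (n + 1) ^ 2 * D0 * ∑ p ∈ PP W z, 1 / ((p : ℝ) - 1) * (1 / (p : ℝ) ^ 2) := by
    rw [Finset.mul_sum, Finset.mul_sum, Finset.mul_sum, ← Finset.sum_add_distrib,
      ← Finset.sum_add_distrib]
    refine Finset.sum_congr rfl fun p _ => ?_
    ring
  rw [e4]
  have f1 := mul_le_mul_of_nonneg_left e1 (by positivity : 0 ≤ C0 * κ)
  have f2 := mul_le_mul_of_nonneg_left e2 (by positivity : 0 ≤ 2 * C * C0)
  have f3 := mul_le_mul_of_nonneg_left e3 (by positivity : 0 ≤ C0 * (n + 1 : ℝ) ^ 2 * D0)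
  have f4 : C0 * (n + 1 : ℝ) ^ 2 * D0 * (1 / w0) ≤ D0 / 16 := by
    rw [mul_one_div, div_le_div_iff₀ hw0p (by norm_num)]
    nlinarith
  linarith

/-- the numerical part -/
theorem model_num (Λ κ C A T n L : ℝ) (hΛ : 0 < Λ) (hκ : 0 < κ) (hC : 1 ≤ C) (hA : 32 ≤ A)
    (hAΛ : 24576 * Λ ≤ A) (hT : 0 < T) (hTA : A * T = Real.exp (A / 16) - 1) (hn : 1 ≤ n)
    (hnT : 2 * T ≤ n) (hL : 0 < L) (h3 : 64 * n * C + 8 * A * n * C ≤ κ * L)
    (A1 A2 A3 V α : ℝ) (hV : V = Real.exp (T / n * L)) (hα : α = A * n / L)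
    (a1 : κ * (Real.log (1 + α * Real.log V) / α) - 2 * C ≤ A1)
    (a2 : A2 ≤ κ / α + 2 * C)
    (a3 : κ / α * (1 - 1 / (1 + α * Real.log V)) - 2 * C ≤ A2)
    (a4 : A3 ≤ κ * (Real.log (1 + α * Real.log V) / α ^ 2) + 2 * C / α) :
    n * A3 ≤ 1 / 4 * A2 * Real.log (Real.exp L / V) ∧ Λ * (3 * κ) * L * A2 ≤ n / 4 * A1 ^ 2 := by
  have hn0 : 0 < n := by linarith
  have hA0 : 0 < A := by linarith
  have hlogV : Real.log V = T / n * L := by rw [hV, Real.log_exp]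
  have hαV : 1 + α * Real.log V = Real.exp (A / 16) := by
    rw [hlogV, hα]
    have : A * n / L * (T / n * L) = A * T := by field_simp
    rw [this, hTA]
    ring
  rw [hαV, Real.log_exp] at a1 a4
  rw [hαV] at a3
  have hα1 : 1 / α = L / (A * n) := by rw [hα, one_div_div]
  set u : ℝ := L / (A * n) with hu
  have hu0 : 0 < u := by rw [hu]; positivity
  have huL : L = A * n * u := by rw [hu]; field_simp
  have b1 : κ * (A / 16 * u) - 2 * C ≤ A1 := by
    have : A / 16 / α = A / 16 * u := by rw [← hα1]; ring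
    rwa [this] at a1
  have b2 : A2 ≤ κ * u + 2 * C := by
    have : κ / α = κ * u := by rw [← hα1]; ring
    rwa [this] at a2
  have hexp : 1 / Real.exp (A / 16) ≤ 1 / 4 := by
    apply one_div_le_one_div_of_le (by norm_num)
    have h1 : (2 : ℝ) ≤ Real.exp 1 := by have := Real.add_one_le_exp (1 : ℝ); linarith
    have h2 : Real.exp 2 = Real.exp 1 * Real.exp 1 := by rw [← Real.exp_add]; norm_num
    have h3 : Real.exp 2 ≤ Real.exp (A / 16) := Real.exp_le_exp.2 (by linarith)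
    nlinarith
  have b3 : κ * u * (3 / 4) - 2 * C ≤ A2 := by
    have e : κ / α = κ * u := by rw [← hα1]; ring
    rw [e] at a3
    have : κ * u * (3 / 4) ≤ κ * u * (1 - 1 / Real.exp (A / 16)) :=
      mul_le_mul_of_nonneg_left (by linarith) (by positivity)
    linarith
  have b4 : A3 ≤ κ * (A / 16 * u ^ 2) + 2 * C * u := by
    have e1 : A / 16 / α ^ 2 = A / 16 * u ^ 2 := by rw [← hα1]; ring
    have e2 : 2 * C / α = 2 * C * u := by rw [← hα1]; ring
    rwa [e1, e2] at a4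
  have hlogR : Real.log (Real.exp L / V) = L - T / n * L := by
    rw [Real.log_div (Real.exp_pos L).ne' (by rw [hV]; exact (Real.exp_pos _).ne'), Real.log_exp,
      hlogV]
  have hβ : T / n ≤ 1 / 2 := by
    rw [div_le_div_iff₀ hn0 (by norm_num)]
    linarith
  have hlogR2 : L / 2 ≤ Real.log (Real.exp L / V) := by
    rw [hlogR]
    nlinarith
  -- consequences of `L` large
  have c1 : 64 * C + 8 * A * C ≤ κ * (A * u) := by
    have : κ * L = n * (κ * (A * u)) := by rw [huL]; ring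
    rw [this] at h3
    have h4 : n * (64 * C + 8 * A * C) ≤ n * (κ * (A * u)) := by linarith
    exact le_of_mul_le_mul_left h4 hn0
  have c2 : 8 * C ≤ κ * u := by
    have h5 : A * (8 * C) ≤ A * (κ * u) := by nlinarith
    exact le_of_mul_le_mul_left h5 hA0
  constructor
  · have hA2p : 0 ≤ A2 := by nlinarith
    have s1 : 1 / 4 * A2 * (L / 2) ≤ 1 / 4 * A2 * Real.log (Real.exp L / V) :=
      mul_le_mul_of_nonneg_left hlogR2 (by positivity)
    refine le_trans ?_ s1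
    have s2 : n * A3 ≤ n * (κ * (A / 16 * u ^ 2) + 2 * C * u) := mul_le_mul_of_nonneg_left b4 hn0.le
    have s3 : 1 / 8 * L * (κ * u * (3 / 4) - 2 * C) ≤ 1 / 4 * A2 * (L / 2) := by
      have := mul_le_mul_of_nonneg_left b3 (by positivity : 0 ≤ 1 / 8 * L)
      linarith
    refine s2.trans (le_trans ?_ s3)
    rw [huL]
    have s4 : κ * (A / 16 * u ^ 2) + 2 * C * u ≤ 1 / 8 * (A * u) * (κ * u * (3 / 4) - 2 * C) := by
      have s5 : u * (64 * C + 8 * A * C) ≤ u * (κ * (A * u)) := mul_le_mul_of_nonneg_left c1 hu0.le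
      linarith only [s5]
    have s6 := mul_le_mul_of_nonneg_left s4 hn0.le
    linarith only [s6]
  · have d1 : κ * (A / 32 * u) ≤ A1 := by
      have : 2 * C ≤ κ * (A / 32 * u) := by nlinarith [mul_nonneg hA0.le (by linarith : (0 : ℝ) ≤ C)]
      linarith
    have d2 : A2 ≤ 2 * (κ * u) := by linarith
    have d3 : (κ * (A / 32 * u)) ^ 2 ≤ A1 ^ 2 := pow_le_pow_left₀ (by positivity) d1 2
    calc Λ * (3 * κ) * L * A2 ≤ Λ * (3 * κ) * L * (2 * (κ * u)) :=
          mul_le_mul_of_nonneg_left d2 (by positivity)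
      _ = (6 * Λ) * (κ ^ 2 * A * n * u ^ 2) := by rw [huL]; ring
      _ ≤ (A / 4096) * (κ ^ 2 * A * n * u ^ 2) :=
          mul_le_mul_of_nonneg_right (by linarith) (by positivity)
      _ = n / 4 * (κ * (A / 32 * u)) ^ 2 := by ring
      _ ≤ n / 4 * A1 ^ 2 := mul_le_mul_of_nonneg_left d3 (by positivity)

/-- the condition for the bad primes -/
theorem model_num2 (κ C C0 C' θ δ L D0 : ℝ) (hκ : 0 < κ) (hC : 1 ≤ C) (hC0 : 1 ≤ C0)
    (hθ : θ = 1 / (16 * C0)) (hδ : δ = κ / (32 * C * C0 * θ)) (hL : 0 < L)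
    (h4 : 3 * C + 16 * C0 * κ * C' + 32 * C * C0 * (C' - 1 - Real.log δ) ≤ κ * L)
    (hD0 : κ * L - C ≤ D0) :
    C0 * κ * (Real.log (Real.exp (θ * L)) + C') +
      2 * C * C0 * (Real.log (Real.log (Real.exp (θ * L))) + C') + D0 / 16 ≤ D0 / 4 := by
  have hC0' : 0 < C0 := by linarith
  have hCp : 0 < C := by linarith
  have hθ0 : 0 < θ := by rw [hθ]; positivity
  have hδ0 : 0 < δ := by rw [hδ]; positivity
  rw [Real.log_exp]
  have h1 : Real.log (θ * L) ≤ δ * (θ * L) - 1 - Real.log δ := by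
    have h2 := Real.log_le_sub_one_of_pos (by positivity : 0 < δ * (θ * L))
    rw [Real.log_mul hδ0.ne' (by positivity)] at h2
    linarith
  have h2 : 2 * C * C0 * (δ * (θ * L)) = κ * L / 16 := by
    rw [hδ]
    field_simp
    ring
  have h3 : C0 * κ * (θ * L) = κ * L / 16 := by
    rw [hθ]
    field_simp
  have h5 := mul_le_mul_of_nonneg_left h1 (by positivity : 0 ≤ 2 * C * C0)
  nlinarith

end H48

open H48 in
/-- MODEL -/
theorem MODEL (hQU : S_QU) (hSUMU : S_SUMU) (hLOW : S_LOW) (hBAD : S_BAD) (hMSUM : S_MSUM)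
    (hA123 : S_A123) (hMERT : S_MERT) : S_MODEL := by
  classical
  obtain ⟨C0, hC0, hB⟩ := hBAD
  obtain ⟨C', hC', hM⟩ := hMERT
  have hC0' : 0 < C0 := by linarith
  obtain ⟨θ, hθ⟩ : ∃ θ : ℝ, θ = 1 / (16 * C0) := ⟨_, rfl⟩
  have hθ0 : 0 < θ := by rw [hθ]; positivity
  have hθ1 : θ ≤ 1 := by
    rw [hθ, div_le_one (by positivity)]
    linarith
  refine ⟨θ, hθ0, hθ1, ?_⟩
  intro Λ hΛ
  obtain ⟨A, hA⟩ : ∃ A : ℝ, A = 32 + 24576 * Λ := ⟨_, rfl⟩
  have hA32 : 32 ≤ A := by rw [hA]; linarith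
  have hAΛ : 24576 * Λ ≤ A := by rw [hA]; linarith
  have hA0 : 0 < A := by linarith
  obtain ⟨T, hT⟩ : ∃ T : ℝ, T = (Real.exp (A / 16) - 1) / A := ⟨_, rfl⟩
  have hexp : 1 < Real.exp (A / 16) := Real.one_lt_exp_iff.2 (by positivity)
  have hT0 : 0 < T := by rw [hT]; exact div_pos (by linarith) hA0
  have hTA : A * T = Real.exp (A / 16) - 1 := by rw [hT]; field_simp
  obtain ⟨n, hn1, hnT⟩ : ∃ n : ℕ, 1 ≤ n ∧ 2 * T ≤ n := by
    refine ⟨⌈2 * T⌉₊ + 1, by omega, ?_⟩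
    have := Nat.le_ceil (2 * T)
    push_cast
    linarith
  have hn1' : (1 : ℝ) ≤ n := by exact_mod_cast hn1
  obtain ⟨w1, h1⟩ := hLOW n hn1
  obtain ⟨w2, h2⟩ := hB n hn1
  refine ⟨n, hn1, max (max w1 w2) (max (n + 2) ⌈16 * C0 * (n + 1) ^ 2⌉₊),
    le_trans (le_max_left _ _) (le_max_right _ _), ?_⟩
  intro W hW hWp
  obtain ⟨κ, C, hκ1, hκ2, hC, hMs⟩ := hMSUM W hW
  have hφ : (0 : ℝ) < (W.totient : ℝ) / W := by
    have h3 : 0 < W.totient := Nat.totient_pos.2 hW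
    have h4 : (0 : ℝ) < W.totient := by exact_mod_cast h3
    have h5 : (0 : ℝ) < W := by exact_mod_cast hW
    positivity
  have hκ : 0 < κ := by linarith
  obtain ⟨δ, hδ⟩ : ∃ δ : ℝ, δ = κ / (32 * C * C0 * θ) := ⟨_, rfl⟩
  refine ⟨max (max 1 (2 / θ)) (max ((64 * n * C + 8 * A * n * C) / κ)
    ((3 * C + 16 * C0 * κ * C' + 32 * C * C0 * (C' - 1 - Real.log δ)) / κ)), ?_⟩
  intro L hL
  have hL1 : 1 ≤ L := le_trans (le_trans (le_max_left _ _) (le_max_left _ _)) hL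
  have hL2 : 2 ≤ θ * L := by
    have : 2 / θ ≤ L := le_trans (le_trans (le_max_right _ _) (le_max_left _ _)) hL
    rw [div_le_iff₀ hθ0] at this
    linarith
  have hL3 : 64 * n * C + 8 * A * n * C ≤ κ * L := by
    have : (64 * n * C + 8 * A * n * C) / κ ≤ L :=
      le_trans (le_trans (le_max_left _ _) (le_max_right _ _)) hL
    rw [div_le_iff₀ hκ] at this
    linarith
  have hL4 : 3 * C + 16 * C0 * κ * C' + 32 * C * C0 * (C' - 1 - Real.log δ) ≤ κ * L := by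
    have : (3 * C + 16 * C0 * κ * C' + 32 * C * C0 * (C' - 1 - Real.log δ)) / κ ≤ L :=
      le_trans (le_trans (le_max_right _ _) (le_max_right _ _)) hL
    rw [div_le_iff₀ hκ] at this
    linarith
  have hL0 : 0 < L := by linarith
  obtain ⟨V, hV⟩ : ∃ V : ℝ, V = Real.exp (T / n * L) := ⟨_, rfl⟩
  obtain ⟨α, hα⟩ : ∃ α : ℝ, α = A * n / L := ⟨_, rfl⟩
  have hn0 : (0 : ℝ) < n := by linarith
  have hα0 : 0 < α := by rw [hα]; positivity
  have hβ : T / n ≤ 1 / 2 := by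
    rw [div_le_div_iff₀ hn0 (by norm_num)]
    linarith
  have hβ0 : 0 < T / n := by positivity
  have hV1 : 1 ≤ V := by
    rw [hV]
    exact Real.one_le_exp (by positivity)
  have hVlt : V < Real.exp L := by
    rw [hV]
    refine Real.exp_lt_exp.2 ?_
    nlinarith
  have hRY : Real.exp L ≤ Real.exp (2 * L) := Real.exp_le_exp.2 (by linarith)
  have hR1 : 1 ≤ Real.exp L := Real.one_le_exp hL0.le
  obtain ⟨a1, a2, a3, a4⟩ := hA123 W κ C hW hκ hC hMs V α hV1 hα0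
  obtain ⟨n1, n2⟩ := model_num Λ κ C A T n L hΛ hκ hC hA32 hAΛ hT0 hTA hn1' hnT hL0 hL3
    (A1s W V α) (A2s W V α) (A3s W V α) V α hV hα a1 a2 a3 a4
  have hA1 : 1 ≤ A1s W V α := one_le_A1s W V α hα0.le hV1
  have hA2 : 1 ≤ A2s W V α := one_le_A2s W V α hV1
  have hD1 : 1 ≤ Msum W (Real.exp L) := one_le_Msum W _ hR1
  have hDL : κ * L - C ≤ Msum W (Real.exp L) := by
    have := (abs_le.1 (hMs (Real.exp L) hR1)).1
    rw [Real.log_exp] at this
    linarith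
  set A1 := A1s W V α with hA1d
  set A2 := A2s W V α with hA2d
  set D0 := Msum W (Real.exp L) with hD0d
  have hA2n : 1 ≤ A2 ^ (n - 1) := one_le_pow₀ hA2
  have hA1s : 1 ≤ A1 ^ 2 := one_le_pow₀ hA1
  have hWw : ∀ Y : ℝ, ∀ p ∈ PP W Y, max (max w1 w2) (max (n + 2) ⌈16 * C0 * (n + 1) ^ 2⌉₊) < p :=
    fun Y p hp => PP_gt hWp hp
  refine ⟨V, α, hV1, hVlt.le, hα0.le, D0 * A2 ^ n, 1 / 4 * D0 * (A1 ^ 2 * A2 ^ (n - 1)),
    by positivity, ?_, ?_, ?_, ?_⟩
  · have : 1 ≤ D0 * (A1 ^ 2 * A2 ^ (n - 1)) :=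
      one_le_mul_of_one_le_of_one_le hD1 (one_le_mul_of_one_le_of_one_le hA1s hA2n)
    linarith only [this]
  · refine (hQU (PP W (Real.exp (2 * L))) n (fun p hp => ⟨PP_prime hp, ?_⟩) _).trans
      (hSUMU W n (Real.exp (2 * L)) (Real.exp L) (Real.exp L) V α hW hα0.le)
    have h3 := hWw _ p hp
    have h4 : n + 2 ≤ max (max w1 w2) (max (n + 2) ⌈16 * C0 * (n + 1) ^ 2⌉₊) :=
      le_trans (le_max_left _ _) (le_max_right _ _)
    omega
  · intro k
    have hlow := h1 W hW (fun p hp hle => hWp p hp (hle.trans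
      (le_trans (le_max_left _ _) (le_max_left _ _)))) (Real.exp (2 * L)) (Real.exp L) (Real.exp L)
      V α hα0.le hV1 hVlt (hVlt.le.trans hRY) hR1 hRY n1 k
    have hz3 : 3 ≤ Real.exp (θ * L) := by
      have := Real.add_one_le_exp (θ * L)
      linarith
    have hsub : PP W (Real.exp (θ * L)) ⊆ PP W (Real.exp (2 * L)) := by
      intro p hp
      unfold PP at hp ⊢
      rw [mem_filter, mem_Icc] at hp ⊢
      refine ⟨⟨hp.1.1, hp.1.2.trans (Nat.floor_le_floor (Real.exp_le_exp.2 ?_))⟩, hp.2⟩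
      nlinarith
    have hbad : ∀ p0 ∈ PP W (Real.exp (θ * L)), qform (wKB k.succ p0)
        (lamv (yv (Real.exp L) (Real.exp L) V α : Cfg (PP W (Real.exp (2 * L))) n → ℝ)) ≤
        (A1 ^ 2 * A2 ^ (n - 1)) * (1 / ((p0 : ℝ) - 1) * (C0 * (κ * Real.log p0 + 2 * C) +
          C0 * (n + 1) ^ 2 / (p0 : ℝ) ^ 2 * D0)) := by
      intro p0 hp0
      have hpr : p0.Prime := PP_prime hp0
      have hlp : 0 ≤ Real.log p0 := Real.log_natCast_nonneg p0
      have := h2 W hW (fun p hp hle => hWp p hp (hle.trans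
        (le_trans (le_max_right _ _) (le_max_left _ _)))) (Real.exp (2 * L)) (Real.exp L)
        (Real.exp L) V α hα0.le hV1 hR1 k ⟨p0, hsub hp0⟩ (κ * Real.log p0 + 2 * C)
        (by positivity) (fun y hy => window W κ C hκ hC hMs p0 hpr.two_le y hy)
      refine this.trans (le_of_eq ?_)
      ring
    have hsum := bad_sum W (max (max w1 w2) (max (n + 2) ⌈16 * C0 * (n + 1) ^ 2⌉₊)) n
      (Real.exp (θ * L)) κ C C0 C' D0 hz3 hκ hC hC0 (by linarith) (hWw _) (by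
        refine (Nat.le_ceil _).trans ?_
        exact_mod_cast le_trans (le_max_right _ _) (le_max_right _ _))
      (hM _ hz3).1 (hM _ hz3).2
    have hnum := model_num2 κ C C0 C' θ δ L D0 hκ hC hC0 hθ hδ hL0 hL4 hDL
    have hS : ∑ p0 ∈ PP W (Real.exp (θ * L)), qform (wKB k.succ p0)
        (lamv (yv (Real.exp L) (Real.exp L) V α : Cfg (PP W (Real.exp (2 * L))) n → ℝ)) ≤
        (A1 ^ 2 * A2 ^ (n - 1)) * (D0 / 4) := by
      refine (Finset.sum_le_sum hbad).trans ?_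
      rw [← Finset.mul_sum]
      exact mul_le_mul_of_nonneg_left (hsum.trans hnum) (by positivity)
    have e1 : 1 / 2 * D0 * A2 ^ (n - 1) * A1 ^ 2 = 1 / 4 * D0 * (A1 ^ 2 * A2 ^ (n - 1)) +
      (A1 ^ 2 * A2 ^ (n - 1)) * (D0 / 4) := by ring
    rw [e1] at hlow
    exact le_sub_iff_add_le.2 ((add_le_add le_rfl hS).trans hlow)
  · have hpow : A2 ^ n = A2 * A2 ^ (n - 1) := by
      conv_lhs => rw [← Nat.succ_pred_eq_of_pos (show 0 < n by omega), pow_succ]
      rw [mul_comm]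
      rfl
    rw [hpow]
    have hφ3 : (W.totient : ℝ) / W ≤ 3 * κ := by linarith only [hκ1]
    have e2 : Λ * ((W.totient : ℝ) / W) * L * A2 ≤ n / 4 * A1 ^ 2 := by
      refine le_trans ?_ n2
      have : Λ * ((W.totient : ℝ) / W) ≤ Λ * (3 * κ) := mul_le_mul_of_nonneg_left hφ3 hΛ.le
      exact mul_le_mul_of_nonneg_right (mul_le_mul_of_nonneg_right this hL0.le)
        (zero_le_one.trans hA2)
    have e3 := mul_le_mul_of_nonneg_right e2 (by positivity : 0 ≤ D0 * A2 ^ (n - 1))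
    calc Λ * ((W.totient : ℝ) / W) * L * (D0 * (A2 * A2 ^ (n - 1))) =
        Λ * ((W.totient : ℝ) / W) * L * A2 * (D0 * A2 ^ (n - 1)) := by ring
      _ ≤ n / 4 * A1 ^ 2 * (D0 * A2 ^ (n - 1)) := e3
      _ = n * (1 / 4 * D0 * (A1 ^ 2 * A2 ^ (n - 1))) := by ring

end MTA
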