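import Pool.Agent.H20.MT.Stmts

/-!
# Project MTA: basic facts on `GG`, `rr`, products over the sifting primes (helper48)
-/

set_option autoImplicit false

namespace MTA
open Finset

namespace H48

theorem PP_prime {W : ℕ} {Y : ℝ} {p : ℕ} (h : p ∈ PP W Y) : p.Prime := by
  unfold PP at h; exact (mem_filter.1 h).2.1

theorem PP_ndvd {W : ℕ} {Y : ℝ} {p : ℕ} (h : p ∈ PP W Y) : ¬ p ∣ W := by
  unfold PP at h; exact (mem_filter.1 h).2.2

theorem PP_gt {W w0 : ℕ} {Y : ℝ} (hW : ∀ p : ℕ, p.Prime → p ≤ w0 → p ∣ W) {p : ℕ}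
    (h : p ∈ PP W Y) : w0 < p := by
  by_contra hc
  exact PP_ndvd h (hW p (PP_prime h) (not_lt.1 hc))

theorem GG_nonneg {α V : ℝ} (hα : 0 ≤ α) (a : ℕ) : 0 ≤ GG α V a := by
  unfold GG
  split_ifs
  · have := Real.log_natCast_nonneg a
    positivity
  · exact le_rfl

theorem GG_anti {α V : ℝ} (hα : 0 ≤ α) {a b : ℕ} (ha : 1 ≤ a) (hab : a ≤ b) :
    GG α V b ≤ GG α V a := by
  have hab' : (a : ℝ) ≤ b := by exact_mod_cast hab
  have ha' : (0 : ℝ) < a := by exact_mod_cast ha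
  by_cases hb : (b : ℝ) ≤ V
  · unfold GG
    rw [if_pos hb, if_pos (hab'.trans hb)]
    have h1 := Real.log_natCast_nonneg a
    have h2 : Real.log a ≤ Real.log b := Real.log_le_log ha' hab'
    apply one_div_le_one_div_of_le
    · positivity
    · nlinarith [mul_le_mul_of_nonneg_left h2 hα]
  · have : GG α V b = 0 := by unfold GG; rw [if_neg hb]
    rw [this]
    exact GG_nonneg hα a

section
variable {P : Finset ℕ} {n : ℕ}

theorem rr_pos (hP : ∀ p ∈ P, p.Prime) (A : Cfg P n) (m : Fin (n + 1)) : 1 ≤ rr A m := by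
  unfold rr
  refine Nat.succ_le_of_lt (Finset.prod_pos ?_)
  intro p _
  split_ifs
  · exact (hP p p.2).pos
  · exact one_pos

theorem rr_update_some (A : Cfg P n) (p0 : ↥P) (h : A p0 = none) (l m : Fin (n + 1)) :
    rr (Function.update A p0 (some l)) m = (if m = l then (p0 : ℕ) else 1) * rr A m := by
  classical
  unfold rr
  rw [← Finset.mul_prod_erase univ _ (mem_univ p0),
    ← Finset.mul_prod_erase univ (fun p : ↥P => if A p = some m then (p : ℕ) else 1) (mem_univ p0)]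
  have h1 : (if A p0 = some m then (p0 : ℕ) else 1) = 1 := by rw [h]; simp
  rw [h1, one_mul]
  congr 1
  · rw [Function.update_self]
    by_cases hml : m = l
    · subst hml; simp
    · rw [if_neg hml, if_neg (by rintro hh; exact hml (Option.some.inj hh).symm)]
  · refine Finset.prod_congr rfl fun p hp => ?_
    rw [Function.update_of_ne (Finset.ne_of_mem_erase hp)]

/-- `rr` is monotone under extension -/
theorem rr_mono (hP : ∀ p ∈ P, p.Prime) {A A' : Cfg P n} (h : ∀ p, A p ≠ none → A' p = A p)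
    (m : Fin (n + 1)) : rr A m ≤ rr A' m := by
  unfold rr
  refine Finset.prod_le_prod' fun p _ => ?_
  by_cases h1 : A p = some m
  · rw [if_pos h1, if_pos (by rw [h p (by rw [h1]; simp), h1])]
  · rw [if_neg h1]
    split_ifs
    · exact (hP p p.2).one_le
    · exact le_rfl

/-- the set of primes with a property -/
noncomputable def supp (c : ↥P → Prop) [DecidablePred c] : Finset ℕ :=
  (univ.filter c).map (Function.Embedding.subtype _)

theorem supp_sub (c : ↥P → Prop) [DecidablePred c] : supp c ∈ P.powerset := by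
  rw [Finset.mem_powerset]
  intro x hx
  unfold supp at hx
  rw [Finset.mem_map] at hx
  obtain ⟨y, _, rfl⟩ := hx
  exact y.2

theorem supp_prod {β : Type} [CommMonoid β] (c : ↥P → Prop) [DecidablePred c] (f : ℕ → β) :
    ∏ p ∈ supp c, f p = ∏ p : ↥P, if c p then f p else 1 := by
  unfold supp
  rw [Finset.prod_map, Finset.prod_filter]
  rfl

theorem mem_supp (c : ↥P → Prop) [DecidablePred c] (p : ↥P) : (p : ℕ) ∈ supp c ↔ c p := by
  unfold supp
  rw [Finset.mem_map]
  constructor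
  · rintro ⟨y, hy, h⟩
    have : y = p := Subtype.ext h
    rw [← this]
    exact (Finset.mem_filter.1 hy).2
  · intro h
    exact ⟨p, Finset.mem_filter.2 ⟨mem_univ _, h⟩, rfl⟩

end

/-- `∏ (1 + x) (1 - ∑ x) ≤ 1` -/
theorem prod_bound (s : Finset ℕ) (x : ℕ → ℝ) (hx : ∀ p ∈ s, 0 ≤ x p) :
    (∏ p ∈ s, (1 + x p)) * (1 - ∑ p ∈ s, x p) ≤ 1 := by
  classical
  induction s using Finset.induction_on with
  | empty => simp
  | insert a s ha ih =>
    rw [Finset.prod_insert ha, Finset.sum_insert ha]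
    have h1 := ih (fun p hp => hx p (Finset.mem_insert_of_mem hp))
    have h2 : 0 ≤ x a := hx a (Finset.mem_insert_self a s)
    have h3 : 0 ≤ ∑ p ∈ s, x p := Finset.sum_nonneg fun p hp => hx p (Finset.mem_insert_of_mem hp)
    have h4 : 0 ≤ ∏ p ∈ s, (1 + x p) := Finset.prod_nonneg fun p hp => by
      have := hx p (Finset.mem_insert_of_mem hp); linarith
    calc (1 + x a) * (∏ p ∈ s, (1 + x p)) * (1 - (x a + ∑ p ∈ s, x p)) =
        (∏ p ∈ s, (1 + x p)) * ((1 - ∑ p ∈ s, x p) - (x a ^ 2 + x a * ∑ p ∈ s, x p)) := by ring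
      _ ≤ (∏ p ∈ s, (1 + x p)) * (1 - ∑ p ∈ s, x p) := by
        apply mul_le_mul_of_nonneg_left _ h4
        nlinarith [mul_nonneg h2 h3, sq_nonneg (x a)]
      _ ≤ 1 := h1

/-- `∏ (1 + x) ≤ 1 / (1 - ∑ x)` -/
theorem prod_bound' (s : Finset ℕ) (x : ℕ → ℝ) (hx : ∀ p ∈ s, 0 ≤ x p) {b : ℝ} (hb : b < 1)
    (hs : ∑ p ∈ s, x p ≤ b) : ∏ p ∈ s, (1 + x p) ≤ 1 / (1 - b) := by
  have h1 := prod_bound s x hx
  have h4 : 0 ≤ ∏ p ∈ s, (1 + x p) := Finset.prod_nonneg fun p hp => by
    have := hx p hp; linarith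
  rw [le_div_iff₀ (by linarith)]
  calc (∏ p ∈ s, (1 + x p)) * (1 - b) ≤ (∏ p ∈ s, (1 + x p)) * (1 - ∑ p ∈ s, x p) := by
        apply mul_le_mul_of_nonneg_left _ h4; linarith
    _ ≤ 1 := h1

theorem sum_tel (w M : ℕ) (hw : 1 ≤ w) (hM : w ≤ M) :
    ∑ m ∈ Ioc w M, 1 / ((m : ℝ) * (m - 1)) = 1 / w - 1 / M := by
  induction M, hM using Nat.le_induction with
  | base => simp
  | succ M hM ih =>
    rw [← Finset.insert_Ioc_right_eq_Ioc_add_one (by omega), Finset.sum_insert (by simp), ih]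
    have h1 : (M : ℝ) ≠ 0 := by
      have : 0 < M := by omega
      positivity
    have h2 : (w : ℝ) ≠ 0 := by
      have : 0 < w := by omega
      positivity
    push_cast
    have h3 : (M : ℝ) + 1 - 1 = M := by ring
    have h4 : (M : ℝ) + 1 ≠ 0 := by positivity
    rw [h3]
    have h5 : 1 / (((M : ℝ) + 1) * M) = 1 / M - 1 / (M + 1) := by
      rw [div_sub_div _ _ h1 h4, div_eq_div_iff (mul_ne_zero h4 h1) (mul_ne_zero h1 h4)]
      ring
    rw [h5]
    ring

/-- `∑ 1 / (p (p-1)) ≤ 1 / w` over integers `> w` -/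
theorem sum_bound (s : Finset ℕ) (w : ℕ) (hw : 1 ≤ w) (hs : ∀ p ∈ s, w < p) :
    ∑ p ∈ s, 1 / ((p : ℝ) * (p - 1)) ≤ 1 / w := by
  have h1 : s ⊆ Ioc w (w + s.sup id) := by
    intro p hp
    rw [Finset.mem_Ioc]
    refine ⟨hs p hp, ?_⟩
    have := Finset.le_sup (f := id) hp
    simp only [id] at this
    omega
  calc ∑ p ∈ s, 1 / ((p : ℝ) * (p - 1)) ≤ ∑ m ∈ Ioc w (w + s.sup id), 1 / ((m : ℝ) * (m - 1)) := by
        apply Finset.sum_le_sum_of_subset_of_nonneg h1
        intro m hm _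
        rw [Finset.mem_Ioc] at hm
        have : (1 : ℝ) ≤ m := by
          have : 1 ≤ m := by omega
          exact_mod_cast this
        have h2 : (0 : ℝ) ≤ (m : ℝ) - 1 := by linarith
        positivity
    _ = 1 / w - 1 / ((w + s.sup id : ℕ) : ℝ) := sum_tel w _ hw (by omega)
    _ ≤ 1 / w := by
        have : (0 : ℝ) ≤ 1 / ((w + s.sup id : ℕ) : ℝ) := by positivity
        linarith

end H48

end MTA
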